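import Mathlib

/-!
# Base : the coordinate ring of the overlap of the two charts of the curve `a^2 = (b^q - b) a + 1`

MP_eadf0f_ag, every field of characteristic `p`. The same ring as `EK.CurR`, in the format of `H36.QX`:
`R = k[u, 1/u][w] / (w^2 - Q w - 1)`, `Q = u^q - u`, with its `k`-basis `u^m w^a`
(`m` an integer, `a = 0, 1`). The element `w` has weight `q`. The sections of the chart `u ≠ ∞` are spanned by
the `u^m w^a`, `m ≥ 0`, those of `O(n)` over the chart `u ≠ 0` (trivialised by `x^n`) by the `u^m w^a`,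
`m ≤ n - q a`.
-/

set_option autoImplicit false

namespace H36.NX
end H36.NX

namespace EE

/-- A commutative `k`-algebra `R` with a unit `u` and an element `w` with
`w^2 = (u^q - u) w + 1`, with basis `u^m w^a`. -/
structure ERing (k : Type) [Field k] (q : ℕ) (R : Type) [CommRing R] [Algebra k R] where
  hq : 2 ≤ q
  /-- `u = y / x` -/
  u : Rˣ
  /-- `w = z / x^q` -/
  w : R
  /-- the basis `u^m w^a` -/
  bas : Module.Basis (ℤ × Fin 2) k R
  bas_eq : ∀ (m : ℤ) (a : Fin 2), bas (m, a) = ((u ^ m : Rˣ) : R) * w ^ (a : ℕ)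
  rel : w ^ 2 = ((u : R) ^ q - (u : R)) * w + 1

namespace ERing

variable {k : Type} [Field k] {q : ℕ} {R : Type} [CommRing R] [Algebra k R]

/-- the element `Q = u^q - u` -/
noncomputable def Q (C : ERing k q R) : R := (C.u : R) ^ q - (C.u : R)

theorem Q_eq (C : ERing k q R) : C.Q = (C.u : R) ^ q - (C.u : R) := rfl

theorem rel' (C : ERing k q R) : C.w ^ 2 = C.Q * C.w + 1 := C.rel

/-- the different `2 w - Q` of the double cover `u` -/
noncomputable def dl (C : ERing k q R) : R := 2 * C.w - C.Q

theorem dl_eq (C : ERing k q R) : C.dl = 2 * C.w - C.Q := rfl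

/-- functions on the chart `x ≠ 0` -/
noncomputable def X (C : ERing k q R) : Submodule k R :=
  Submodule.span k (Set.range fun p : ℕ × Fin 2 => C.bas ((p.1 : ℤ), p.2))

/-- sections of `O(n)` on the chart `y ≠ 0`, divided by `x^n` -/
noncomputable def Y (C : ERing k q R) (n : ℤ) : Submodule k R :=
  Submodule.span k (Set.range fun p : ℕ × Fin 2 =>
    C.bas (n - (q : ℤ) * ((p.2 : ℕ) : ℤ) - (p.1 : ℤ), p.2))

/-- global sections of `O(n)`, divided by `x^n` -/
noncomputable def B (C : ERing k q R) (n : ℤ) : Submodule k R := C.X ⊓ C.Y n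

end ERing

end EE
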