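import Pool.Agent.H36.NX.Tri
import Pool.Agent.H2.EE.Base

/-!
# Pc : the three pieces (chart `x ≠ 0`, chart `y ≠ 0`, overlap) of a Čech complex
-/

set_option autoImplicit false

namespace EE

open H36.NX

/-- the piece `X`, `Y n` or `R` of the ring -/
noncomputable def ERing.pc {k : Type} [Field k] {q : ℕ} {R : Type} [CommRing R] [Algebra k R]
    (C : ERing k q R) (s : Pc) (n : ℤ) : Submodule k R :=
  match s with
  | Pc.X => C.X
  | Pc.Y => C.Y n
  | Pc.R => ⊤

end EE
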