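import Pool.Agent.H2.EE.Mul

/-!
# Coh : the cohomology of `O(n)`: `B n = X ⊓ Y n` and `R / (X ⊔ Y n)`

`B n` has the basis `u^m w^a`, `0 ≤ m ≤ n - q a`; the quotient has the basis `u^m w^a`, `n - q a < m < 0`.
-/

set_option autoImplicit false

namespace EE

open H36.NX
namespace ERing

variable {k : Type} [Field k] {q : ℕ} {R : Type} [CommRing R] [Algebra k R]

private theorem Coh_w (q : ℕ) (a : Fin 2) : 0 ≤ (q : ℤ) * ((a : ℕ) : ℤ) ∧
    (q : ℤ) * ((a : ℕ) : ℤ) ≤ q := by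
  have h := a.isLt
  have h2 : ((a : ℕ) : ℤ) = 0 ∨ ((a : ℕ) : ℤ) = 1 := by omega
  rcases h2 with h2 | h2
  · rw [h2, mul_zero]
    exact ⟨le_rfl, by positivity⟩
  · rw [h2, mul_one]
    exact ⟨by positivity, le_rfl⟩

theorem Coh_B_eq (C : ERing k q R) (n : ℤ) :
    C.B n = Submodule.span k
      (C.bas '' {z : ℤ × Fin 2 | 0 ≤ z.1 ∧ z.1 + (q : ℤ) * ((z.2 : ℕ) : ℤ) ≤ n}) := by
  ext r
  rw [Module.Basis.mem_span_image]
  unfold B
  rw [Submodule.mem_inf, Mul_X_eq, Mul_Y_eq, Module.Basis.mem_span_image,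
    Module.Basis.mem_span_image]
  exact ⟨fun h z hz => ⟨h.1 hz, h.2 hz⟩, fun h => ⟨fun z hz => (h hz).1, fun z hz => (h hz).2⟩⟩

theorem Coh_top (C : ERing k q R) (P : Submodule k R) (h : ∀ m a, C.bas (m, a) ∈ P) :
    P = ⊤ := by
  rw [eq_top_iff, ← C.bas.span_eq, Submodule.span_le]
  rintro _ ⟨⟨m, a⟩, rfl⟩
  exact h m a

theorem Coh_fin (s : Set (ℤ × Fin 2)) (a b : ℤ) (h : ∀ z ∈ s, a ≤ z.1 ∧ z.1 ≤ b) : s.Finite :=
  (((Set.finite_Icc a b).prod (Set.finite_univ : (Set.univ : Set (Fin 2)).Finite))).subset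
    fun z hz => ⟨⟨(h z hz).1, (h z hz).2⟩, Set.mem_univ _⟩

theorem finite_B (C : ERing k q R) (n : ℤ) : FiniteDimensional k (C.B n) := by
  rw [Coh_B_eq]
  refine FiniteDimensional.span_of_finite k (Set.Finite.image _ (Coh_fin _ 0 n ?_))
  rintro ⟨m, a⟩ ⟨hm, ha⟩
  have hm' : 0 ≤ m := hm
  have ha' : m + (q : ℤ) * ((a : ℕ) : ℤ) ≤ n := ha
  refine ⟨hm, ?_⟩
  change m ≤ n
  have := (Coh_w q a).1
  omega

theorem finite_quot (C : ERing k q R) (n : ℤ) : FiniteDimensional k (R ⧸ (C.X ⊔ C.Y n)) := by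
  set s : Set (ℤ × Fin 2) := {z | z.1 < 0 ∧ n < z.1 + (q : ℤ) * ((z.2 : ℕ) : ℤ)} with hs
  have hfin : s.Finite := by
    refine Coh_fin _ (n - q) 0 ?_
    rintro ⟨m, a⟩ ⟨hm, ha⟩
    have hm' : m < 0 := hm
    have ha' : n < m + (q : ℤ) * ((a : ℕ) : ℤ) := ha
    have h1 := (Coh_w q a).2
    refine ⟨?_, hm'.le⟩
    change n - q ≤ m
    omega
  have hW : FiniteDimensional k (Submodule.span k (C.bas '' s)) :=
    FiniteDimensional.span_of_finite k (hfin.image _)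
  have htop : (C.X ⊔ C.Y n) ⊔ Submodule.span k (C.bas '' s) = ⊤ := by
    refine Coh_top C _ fun m a => ?_
    by_cases h2 : 0 ≤ m
    · exact Submodule.mem_sup_left (Submodule.mem_sup_left (bas_mem_X C m a h2))
    · by_cases h3 : m + (q : ℤ) * ((a : ℕ) : ℤ) ≤ n
      · exact Submodule.mem_sup_left (Submodule.mem_sup_right (bas_mem_Y C n m a h3))
      · exact Submodule.mem_sup_right (Submodule.subset_span ⟨(m, a),
          ⟨not_le.1 h2, not_le.1 h3⟩, rfl⟩)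
  refine Module.Finite.of_surjective
    ((C.X ⊔ C.Y n).mkQ.comp (Submodule.span k (C.bas '' s)).subtype) ?_
  intro y
  obtain ⟨x, rfl⟩ := Submodule.mkQ_surjective _ y
  have hx : x ∈ (C.X ⊔ C.Y n) ⊔ Submodule.span k (C.bas '' s) := by
    rw [htop]; exact Submodule.mem_top
  obtain ⟨p, hp, z, hz, rfl⟩ := Submodule.mem_sup.1 hx
  refine ⟨⟨z, hz⟩, ?_⟩
  rw [LinearMap.comp_apply, Submodule.subtype_apply, map_add, Submodule.mkQ_apply _ p,
    (Submodule.Quotient.mk_eq_zero _).2 hp, zero_add]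

end ERing
end EE
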