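import Pool.Agent.H2.EE.Mul

/-!
# LiftD : the universal property of the ring `R` of the curve, as an existence statement
-/

set_option autoImplicit false

namespace EE

open H36.NX

/-- the relation between `u'` and `w'` -/
def LRel (q : ℕ) {S : Type} [CommRing S] (u w : S) : Prop := w ^ 2 = (u ^ q - u) * w + 1

/-- the linear map of the lift -/
private noncomputable def liftLin {k : Type} [Field k] {q : ℕ} {R : Type} [CommRing R] [Algebra k R]
    (C : ERing k q R) {S : Type} [CommRing S] [Algebra k S] (u' : Sˣ) (w' : S) : R →ₗ[k] S :=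
  C.bas.constr k fun p => ((u' ^ p.1 : Sˣ) : S) * w' ^ (p.2 : ℕ)

private theorem liftLin_bas {k : Type} [Field k] {q : ℕ} {R : Type} [CommRing R] [Algebra k R]
    (C : ERing k q R) {S : Type} [CommRing S] [Algebra k S] (u' : Sˣ) (w' : S) (m : ℤ)
    (a : Fin 2) : liftLin C u' w' (C.bas (m, a)) = ((u' ^ m : Sˣ) : S) * w' ^ (a : ℕ) := by
  rw [liftLin, Module.Basis.constr_basis]

private theorem lift_Q {k : Type} [Field k] {q : ℕ} {R : Type} [CommRing R] [Algebra k R]
    (C : ERing k q R) {S : Type} [CommRing S] [Algebra k S] (u' : Sˣ) (f : R →ₗ[k] S) (x : R)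
    (y : S) (h : ∀ m : ℤ, f (((C.u ^ m : Rˣ) : R) * x) = ((u' ^ m : Sˣ) : S) * y) (m : ℤ) :
    f (((C.u ^ m : Rˣ) : R) * (C.Q * x)) =
      ((u' ^ m : Sˣ) : S) * (((u' : S) ^ q - (u' : S)) * y) := by
  have e : ∀ i : ℕ, ((u' ^ (m + (i : ℤ)) : Sˣ) : S) = ((u' ^ m : Sˣ) : S) * (u' : S) ^ i := by
    intro i
    rw [zpow_add, zpow_natCast, Units.val_mul, Units.val_pow_eq_pow_val]
  rw [C.Mul_Q, map_sub, h, h, e, e]
  ring

private theorem liftLin_pow {k : Type} [Field k] {q : ℕ} {R : Type} [CommRing R] [Algebra k R]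
    (C : ERing k q R) {S : Type} [CommRing S] [Algebra k S] (u' : Sˣ) (w' : S)
    (h : LRel q (u' : S) w') (j : ℕ) :
    ∀ m : ℤ, liftLin C u' w' (((C.u ^ m : Rˣ) : R) * C.w ^ j) = ((u' ^ m : Sˣ) : S) * w' ^ j := by
  induction j using Nat.strong_induction_on with
  | _ j ih =>
    intro m
    by_cases hj : j < 2
    · have h1 := liftLin_bas C u' w' m ⟨j, hj⟩
      rw [C.bas_eq] at h1
      exact h1
    · obtain ⟨i, rfl⟩ := Nat.exists_eq_add_of_le (not_lt.1 hj)
      have h1 := lift_Q C u' (liftLin C u' w') _ _ (ih (i + 1) (by omega))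
      have h' : w' ^ 2 = ((u' : S) ^ q - (u' : S)) * w' + 1 := h
      rw [C.Mul_wp, map_add, h1, ih i (by omega), pow_add w' 2 i, h']
      ring

/-- the universal property of `R` -/
theorem exists_lift {k : Type} [Field k] {q : ℕ} {R : Type} [CommRing R] [Algebra k R]
    (C : ERing k q R) {S : Type} [CommRing S] [Algebra k S] (u' : Sˣ) (w' : S)
    (h : LRel q (u' : S) w') :
    ∃ f : R →ₐ[k] S, ∀ (m : ℤ) (j : ℕ),
      f (((C.u ^ m : Rˣ) : R) * C.w ^ j) = ((u' ^ m : Sˣ) : S) * w' ^ j := by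
  have hp := liftLin_pow C u' w' h
  have hone : liftLin C u' w' 1 = 1 := by
    have h1 := hp 0 0
    simpa using h1
  have hmul : ∀ x y : R, liftLin C u' w' (x * y) = liftLin C u' w' x * liftLin C u' w' y := by
    have h2 : (LinearMap.mul k R).compr₂ (liftLin C u' w') =
        (LinearMap.mul k S).compl₁₂ (liftLin C u' w') (liftLin C u' w') := by
      refine C.bas.ext fun p => C.bas.ext fun qo => ?_
      obtain ⟨m, a⟩ := p
      obtain ⟨n, b⟩ := qo
      simp only [LinearMap.compr₂_apply, LinearMap.mul_apply', LinearMap.compl₁₂_apply]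
      rw [C.bas_eq, C.bas_eq, hp, hp]
      have h3 : ((C.u ^ m : Rˣ) : R) * C.w ^ (a : ℕ) * (((C.u ^ n : Rˣ) : R) * C.w ^ (b : ℕ)) =
          ((C.u ^ (m + n) : Rˣ) : R) * C.w ^ ((a : ℕ) + (b : ℕ)) := by
        rw [zpow_add, pow_add]; push_cast; ring
      rw [h3, hp, zpow_add, pow_add]
      push_cast
      ring
    intro x y
    exact LinearMap.congr_fun (LinearMap.congr_fun h2 x) y
  exact ⟨AlgHom.ofLinearMap (liftLin C u' w') hone hmul, fun m j => hp j m⟩

/-- the same, values on `u` and `w` -/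
theorem exists_lift' {k : Type} [Field k] {q : ℕ} {R : Type} [CommRing R] [Algebra k R]
    (C : ERing k q R) {S : Type} [CommRing S] [Algebra k S] (u' : Sˣ) (w' : S)
    (h : LRel q (u' : S) w') :
    ∃ f : R →ₐ[k] S, f (C.u : R) = (u' : S) ∧ f C.w = w' ∧
      ∀ (m : ℤ) (a : Fin 2), f (C.bas (m, a)) = ((u' ^ m : Sˣ) : S) * w' ^ (a : ℕ) := by
  obtain ⟨f, hf⟩ := exists_lift C u' w' h
  refine ⟨f, ?_, ?_, fun m a => ?_⟩
  · have h1 := hf 1 0
    simpa using h1
  · have h1 := hf 0 1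
    simpa using h1
  · rw [C.bas_eq]
    exact hf m a

end EE
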