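import Pool.Agent.H2.EE.HomsS
import Pool.Agent.H36.NX.TensHom
import Pool.Agent.H36.NX.Coker

/-!
# Homs : quotients of dg modules by the image of a map; products of left and right modules
-/

set_option autoImplicit false

open NC
open scoped TensorProduct

namespace EE

open H36.NX

section general

variable {k : Type} [Field k] {A B : DGA k} {X Y Z : SD k}

/-- the cokernel of a map of complexes -/
abbrev gq (f : SD.Hom X Y) : SD k :=
  Y.quot (LinearMap.range f.f) (by rintro _ ⟨x, rfl⟩; exact ⟨X.D x, f.D x⟩)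
    (by rintro _ ⟨x, rfl⟩; exact ⟨X.P x, f.P x⟩)

/-- the projection on the cokernel -/
def gqπ (f : SD.Hom X Y) : SD.Hom Y (gq f) := Y.mkq _ _ _

theorem gqπ_surjective (f : SD.Hom X Y) : Function.Surjective (gqπ f).f :=
  (LinearMap.range f.f).mkQ_surjective

theorem gqπ_eq_zero (f : SD.Hom X Y) (y : Y.V) : (gqπ f).f y = 0 ↔ ∃ x, f.f x = y := by
  change (LinearMap.range f.f).mkQ y = 0 ↔ _
  rw [Submodule.mkQ_apply, Submodule.Quotient.mk_eq_zero]
  rfl

theorem gq_ses (f : SD.Hom X Y) (hf : Function.Injective f.f) : SD.SES f (gqπ f) where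
  inj x hx := hf (by rw [hx, map_zero])
  surj := gqπ_surjective f
  zero x := (gqπ_eq_zero f _).2 ⟨x, rfl⟩
  exact y hy := (gqπ_eq_zero f y).1 hy

/-- the universal property -/
def gqDesc (f : SD.Hom X Y) (g : SD.Hom Y Z) (h : ∀ x, g.f (f.f x) = 0) : SD.Hom (gq f) Z where
  f := (LinearMap.range f.f).liftQ g.f (by rintro _ ⟨x, rfl⟩; exact h x)
  D v := by
    obtain ⟨x, rfl⟩ := (LinearMap.range f.f).mkQ_surjective v
    exact g.D x
  P v := by
    obtain ⟨x, rfl⟩ := (LinearMap.range f.f).mkQ_surjective v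
    exact g.P x

theorem gqDesc_π (f : SD.Hom X Y) (g : SD.Hom Y Z) (h : ∀ x, g.f (f.f x) = 0) (y : Y.V) :
    (gqDesc f g h).f ((gqπ f).f y) = g.f y := rfl

/-- `coker f → Z` is a quasi-isomorphism if `g` is surjective and `ker g / im f` is acyclic -/
theorem gqDesc_qi (f : SD.Hom X Y) (g : SD.Hom Y Z) (h : ∀ x, g.f (f.f x) = 0)
    (hs : Function.Surjective g.f)
    (hk : ∀ y, g.f y = 0 → (∃ x, f.f x = Y.D y) → ∃ y' x, g.f y' = 0 ∧ y = Y.D y' + f.f x) :
    (gqDesc f g h).QI := by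
  have key : ∀ v, (gqDesc f g h).f v = 0 → (gq f).D v = 0 →
      ∃ v', (gqDesc f g h).f v' = 0 ∧ (gq f).D v' = v := by
    intro v hv hD
    obtain ⟨y, rfl⟩ := gqπ_surjective f v
    rw [gqDesc_π] at hv
    rw [← (gqπ f).D, gqπ_eq_zero] at hD
    obtain ⟨y', x, h1, h2⟩ := hk y hv hD
    refine ⟨(gqπ f).f y', by rw [gqDesc_π, h1], ?_⟩
    rw [h2, ← (gqπ f).D, map_add, (gqπ_eq_zero f (f.f x)).2 ⟨x, rfl⟩, add_zero]
  constructor
  · intro x y hx hxy
    obtain ⟨y, rfl⟩ := hs y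
    have e1 : (gqDesc f g h).f (x - (gq f).D ((gqπ f).f y)) = 0 := by
      rw [map_sub, (gqDesc f g h).D, gqDesc_π, hxy, sub_self]
    obtain ⟨v', -, h2⟩ := key _ e1 (by rw [map_sub, hx, (gq f).DD, sub_zero])
    exact ⟨v' + (gqπ f).f y, by rw [map_add, h2, sub_add_cancel]⟩
  · intro z hz
    obtain ⟨y, rfl⟩ := hs z
    have e1 : (gqDesc f g h).f ((gq f).D ((gqπ f).f y)) = 0 := by
      rw [(gqDesc f g h).D, gqDesc_π, hz]
    obtain ⟨v', h1, h2⟩ := key _ e1 ((gq f).DD _)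
    refine ⟨(gqπ f).f y - v', 0, by rw [map_sub, h2, sub_self], ?_⟩
    rw [map_zero, add_zero, map_sub, h1, sub_zero, gqDesc_π]

/-- the left action on the cokernel -/
def gqL {a : LA A X} {b : LA A Y} {f : SD.Hom X Y} (h : a.IsHom b f) : LA A (gq f) :=
  b.quot _ _ _ (by rintro r _ ⟨x, rfl⟩; exact ⟨a.act r x, h r x⟩)

/-- the right action on the cokernel -/
def gqR {a : RA A X} {b : RA A Y} {f : SD.Hom X Y} (h : a.IsHom b f) : RA A (gq f) :=
  b.quot _ _ _ (by rintro r _ ⟨x, rfl⟩; exact ⟨a.act x r, h x r⟩)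

theorem gqL_one {a : LA A X} {b : LA A Y} {f : SD.Hom X Y} (h : a.IsHom b f)
    (hb : ∀ y, b.act 1 y = y) (v : (gq f).V) : (gqL h).act 1 v = v := by
  obtain ⟨x, rfl⟩ := gqπ_surjective f v
  change (gqπ f).f (b.act 1 x) = (gqπ f).f x
  rw [hb]

theorem gqR_one {a : RA A X} {b : RA A Y} {f : SD.Hom X Y} (h : a.IsHom b f)
    (hb : ∀ y, b.act y 1 = y) (v : (gq f).V) : (gqR h).act v 1 = v := by
  obtain ⟨x, rfl⟩ := gqπ_surjective f v
  change (gqπ f).f (b.act x 1) = (gqπ f).f x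
  rw [hb]

theorem gqπ_left {a : LA A X} {b : LA A Y} {f : SD.Hom X Y} (h : a.IsHom b f) :
    b.IsHom (gqL h) (gqπ f) := fun _ _ => rfl

theorem gqπ_right {a : RA A X} {b : RA A Y} {f : SD.Hom X Y} (h : a.IsHom b f) :
    b.IsHom (gqR h) (gqπ f) := fun _ _ => rfl

theorem gqDesc_left {a : LA A X} {b : LA A Y} {f : SD.Hom X Y} (h : a.IsHom b f) {c : LA A Z}
    {g : SD.Hom Y Z} (hg : b.IsHom c g) (h0 : ∀ x, g.f (f.f x) = 0) :
    (gqL h).IsHom c (gqDesc f g h0) := by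
  intro r v
  obtain ⟨x, rfl⟩ := gqπ_surjective f v
  exact hg r x

theorem gqDesc_right {a : RA A X} {b : RA A Y} {f : SD.Hom X Y} (h : a.IsHom b f) {c : RA A Z}
    {g : SD.Hom Y Z} (hg : b.IsHom c g) (h0 : ∀ x, g.f (f.f x) = 0) :
    (gqR h).IsHom c (gqDesc f g h0) := by
  intro v r
  obtain ⟨x, rfl⟩ := gqπ_surjective f v
  exact hg x r

/-! ### products of a left and of a right module -/

/-- the product of a left and of a right module -/
noncomputable def tB (a : LA A X) (ha : ∀ x, a.act 1 x = x) (b : RA B Y)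
    (hb : ∀ y, b.act y 1 = y) : BMod A B where
  N := X.tens Y
  b := Bi.tensLR a b
  one_l := fun v => by
    refine tens_ext (f := (a.tensL Y).act 1) (g := LinearMap.id) (fun x y => ?_) v
    rw [LA.tensL_act, ha]
    rfl
  r_one := fun v => by
    refine tens_ext (f := (b.tensR X).act.flip 1) (g := LinearMap.id) (fun x y => ?_) v
    change (b.tensR X).act (x ⊗ₜ[k] y) 1 = _
    rw [RA.tensR_act, hb]
    rfl

/-- the product of two maps -/
noncomputable def tBf {X' Y' : SD k} {a : LA A X} {ha : ∀ x, a.act 1 x = x}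
    {b : RA B Y} {hb : ∀ y, b.act y 1 = y} {a' : LA A X'} {ha' : ∀ x, a'.act 1 x = x}
    {b' : RA B Y'} {hb' : ∀ y, b'.act y 1 = y} (f : SD.Hom X X') (g : SD.Hom Y Y')
    (hf : a.IsHom a' f) (hg : b.IsHom b' g) : BMod.Hom (tB a ha b hb) (tB a' ha' b' hb') where
  toHom := f.tens g
  isHom := isHom_tens f g hf hg

end general

end EE
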