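import Pool.Agent.H2.EE.Bim

/-!
# HomsA : inclusion, multiplication by `u`, `w`, `Q`, and value, as maps of dg modules

WARNING: never let Lean unify `(qSD C α β).V` with different weights (it may run forever): use `q_ext`,
`qv_qIn`, `qv_qU`, `qv_qMulL`, `qv_qMulR`, `smulR_left`, `smulR_right`, `val_mul`.
-/

set_option autoImplicit false

open NC
open scoped TensorProduct

namespace EE

open H36.NX
variable {k : Type} [Field k] {q : ℕ} {R : Type} [CommRing R] [Algebra k R] {I J : Type}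

/-! ### inclusion, multiplication by `u`, value as maps of complexes -/

/-- inclusion -/
noncomputable def qInH (C : ERing k q R) {α α' : I → ℤ} {β β' : J → ℤ}
    (h : ∀ i j, β j - α i ≤ β' j - α' i) : SD.Hom (qSD C α β) (qSD C α' β') where
  f := qIn C h
  D v := q_ext C (by rw [qv_qIn, qv_D, qv_D, qv_qIn])
  P v := q_ext C (by rw [qv_qIn, qv_P, qv_P, qv_qIn])

/-- multiplication by `u` -/
noncomputable def qUH (C : ERing k q R) {α α' : I → ℤ} {β β' : J → ℤ}
    (h : ∀ i j, β j - α i + 1 = β' j - α' i) : SD.Hom (qSD C α β) (qSD C α' β') where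
  f := qU C h
  D v := q_ext C (by rw [qv_qU, qv_D, qv_D, qv_qU, smulR_D])
  P v := q_ext C (by rw [qv_qU, qv_P, qv_P, qv_qU, smulR_P])

/-- multiplication by a section `r` of `O(d)` -/
noncomputable def qSH (C : ERing k q R) {r : R} {d : ℤ} (hr : ∀ s, r ∈ C.pc s d) {α α' : I → ℤ}
    {β β' : J → ℤ} (h : ∀ i j, β j - α i + d = β' j - α' i) :
    SD.Hom (qSD C α β) (qSD C α' β') where
  f := qS C hr h
  D v := q_ext C (by rw [qv_qS, qv_D, qv_D, qv_qS, smulR_D])
  P v := q_ext C (by rw [qv_qS, qv_P, qv_P, qv_qS, smulR_P])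

theorem qInH_left (C : ERing k q R) {β β' : J → ℤ}
    (h : ∀ (i : Fin 2) j, β j - wt i ≤ β' j - wt i) :
    (qLA C β).IsHom (qLA C β') (qInH C h) := fun a n => q_ext C (by
  change qv C wt β' (qIn C h (qMulL C β a n)) = qv C wt β' (qMulL C β' a (qIn C h n))
  rw [qv_qIn, qv_qMulL, qv_qMulL, qv_qIn])

theorem qInH_right (C : ERing k q R) {α α' : I → ℤ} {n n' : ℤ}
    (h : ∀ i j, wtn n j - α i ≤ wtn n' j - α' i) :
    (qRA C α n).IsHom (qRA C α' n') (qInH C h) := fun x a => q_ext C (by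
  change qv C α' (wtn n') (qIn C h (qMulR C α n x a))
    = qv C α' (wtn n') (qMulR C α' n' (qIn C h x) a)
  rw [qv_qIn, qv_qMulR, qv_qMulR, qv_qIn])

theorem qUH_left (C : ERing k q R) {β β' : J → ℤ}
    (h : ∀ (i : Fin 2) j, β j - wt i + 1 = β' j - wt i) :
    (qLA C β).IsHom (qLA C β') (qUH C h) := fun a n => q_ext C (by
  change qv C wt β' (qU C h (qMulL C β a n)) = qv C wt β' (qMulL C β' a (qU C h n))
  rw [qv_qU, qv_qMulL, qv_qMulL, qv_qU, smulR_right])

theorem qUH_right (C : ERing k q R) {α α' : I → ℤ} {n n' : ℤ}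
    (h : ∀ i j, wtn n j - α i + 1 = wtn n' j - α' i) :
    (qRA C α n).IsHom (qRA C α' n') (qUH C h) := fun x a => q_ext C (by
  change qv C α' (wtn n') (qU C h (qMulR C α n x a))
    = qv C α' (wtn n') (qMulR C α' n' (qU C h x) a)
  rw [qv_qU, qv_qMulR, qv_qMulR, qv_qU, smulR_left])

theorem qSH_left (C : ERing k q R) {r : R} {d : ℤ} (hr : ∀ s, r ∈ C.pc s d) {β β' : J → ℤ}
    (h : ∀ (i : Fin 2) j, β j - wt i + d = β' j - wt i) :
    (qLA C β).IsHom (qLA C β') (qSH C hr h) := fun a n => q_ext C (by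
  change qv C wt β' (qS C hr h (qMulL C β a n)) = qv C wt β' (qMulL C β' a (qS C hr h n))
  rw [qv_qS, qv_qMulL, qv_qMulL, qv_qS, smulR_right])

theorem qSH_right (C : ERing k q R) {r : R} {d : ℤ} (hr : ∀ s, r ∈ C.pc s d) {α α' : I → ℤ}
    {n n' : ℤ} (h : ∀ i j, wtn n j - α i + d = wtn n' j - α' i) :
    (qRA C α n).IsHom (qRA C α' n') (qSH C hr h) := fun x a => q_ext C (by
  change qv C α' (wtn n') (qS C hr h (qMulR C α n x a))
    = qv C α' (wtn n') (qMulR C α' n' (qS C hr h x) a)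
  rw [qv_qS, qv_qMulR, qv_qMulR, qv_qS, smulR_left])

end EE
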