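import Pool.Agent.H2.EE.HomsA

/-!
# HomsS : weights, multiplication by a section on the bimodules `Q n`
-/

set_option autoImplicit false

open NC
open scoped TensorProduct

namespace EE

open H36.NX
variable {k : Type} [Field k] {q : ℕ} {R : Type} [CommRing R] [Algebra k R] {I J : Type}

theorem lc_le' (m : ℤ) (i : Fin 2) (_j : Unit) : m - wt i ≤ m + 1 - wt i := by linarith
theorem pr_le' (n : ℤ) (_i : Unit) (j : Fin 2) : wtn n j - 0 ≤ wtn (n + 1) j - 0 := by simp [wtn]
theorem q_le' (n : ℤ) (i j : Fin 2) : wtn n j - wt i ≤ wtn (n + 1) j - wt i := by simp [wtn]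
theorem lc_eq' (m : ℤ) (i : Fin 2) (_j : Unit) : m - wt i + 1 = m + 1 - wt i := by ring
theorem pr_eq' (n : ℤ) (_i : Unit) (j : Fin 2) : wtn n j - 0 + 1 = wtn (n + 1) j - 0 := by
  simp [wtn, add_assoc]
theorem q_eq' (n : ℤ) (i j : Fin 2) : wtn n j - wt i + 1 = wtn (n + 1) j - wt i := by
  simp only [wtn]; ring

theorem lc_eqd (m d : ℤ) (i : Fin 2) (_j : Unit) : m - wt i + d = m + d - wt i := by ring
theorem pr_eqd (n d : ℤ) (_i : Unit) (j : Fin 2) : wtn n j - 0 + d = wtn (n + d) j - 0 := by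
  simp [wtn, add_assoc]
theorem q_eqd (n d : ℤ) (i j : Fin 2) : wtn n j - wt i + d = wtn (n + d) j - wt i := by
  simp only [wtn]; ring

/-- multiplication by a section `r` of `O(d)`, `Q n → Q (n+d)` -/
noncomputable def qs (C : ERing k q R) {r : R} {d : ℤ} (hr : ∀ s, r ∈ C.pc s d) (n : ℤ) :
    BMod.Hom (Qb C n) (Qb C (n + d)) where
  toHom := qSH C hr (q_eqd n d)
  isHom := ⟨qSH_left C hr (q_eqd n d), qSH_right C hr (q_eqd n d)⟩

/-- multiplication by the different, `Q n → Q (n+q)` -/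
noncomputable def qq (C : ERing k q R) (n : ℤ) : BMod.Hom (Qb C n) (Qb C (n + q)) :=
  qs C (fun s => C.dl_mem_pc s le_rfl) n

end EE
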