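import Pool.Agent.H2.EE.KW

/-!
# KWB : `0 → K m n → K (m+1) (n+1) → W (m+n+2) → 0` is exact up to an acyclic complex (step S4)

`kD` is the differential of `K m n = L m ⊗ P n`. With `F s i s' j = mu (kcomp s i s' j z)`:
`z` is in the range of `phi` iff `F = 0` (`ker_mu`), and every family `F` in the pieces `W.pc s s'` comes from some `z`
(`map_mu`, `kcomp_surjective`). If `psi z = 0` and `kD z ∈ range phi` then `F X X = F Y Y = F X Y = F Y X = 0`,
`F X R + F R Y = 0`, `F Y R - F X R - F R Y + F R X = 0`; take `z'` with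
`G X Y = F X R`, `G Y X = - F Y R`, `G Y R = F R R` and the other components zero.
-/

set_option autoImplicit false

open NC
open scoped TensorProduct

namespace EE

open H36.NX
variable {k : Type} [Field k] {q : ℕ} {R : Type} [CommRing R] [Algebra k R]
  {C : ERing k q R} {D : Type} [CommRing D] [Algebra k D]

/-- the differential of `L m ⊗ P n` -/
noncomputable def kD (C : ERing k q R) (m n : ℤ) : KK C m n →ₗ[k] KK C m n :=
  TensorProduct.map (Lc C m).D LinearMap.id + TensorProduct.map (Lc C m).E (Pr C n).D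

private theorem KWB_lEnt_D (C : ERing k q R) (m : ℤ) (s : Pc) (hs : s ≠ Pc.R) (i : Fin 2)
    (f : (Lc C m).V) : lEnt C m s i ((Lc C m).D f) = 0 := by
  change qv C wt (fun _ : Unit => m) ((Lc C m).D f) s i () = 0
  rw [qv_D]
  cases s
  · rfl
  · rfl
  · exact absurd rfl hs

private theorem KWB_lEnt_DR (C : ERing k q R) (m : ℤ) (i : Fin 2)
    (f : (Lc C m).V) : lEnt C m Pc.R i ((Lc C m).D f) = lEnt C m Pc.Y i f - lEnt C m Pc.X i f := by
  change qv C wt (fun _ : Unit => m) ((Lc C m).D f) Pc.R i () = _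
  rw [qv_D]
  rfl

private theorem KWB_lEnt_E (C : ERing k q R) (m : ℤ) (s : Pc) (hs : s ≠ Pc.R) (i : Fin 2)
    (f : (Lc C m).V) : lEnt C m s i ((Lc C m).E f) = lEnt C m s i f := by
  change qv C wt (fun _ : Unit => m) ((Lc C m).E f) s i () = qv C wt (fun _ : Unit => m) f s i ()
  rw [qv_E]
  cases s
  · change qv C wt (fun _ : Unit => m) f Pc.X i () + qv C wt (fun _ : Unit => m) f Pc.X i ()
      - qv C wt (fun _ : Unit => m) f Pc.X i () = _
    abel
  · change qv C wt (fun _ : Unit => m) f Pc.Y i () + qv C wt (fun _ : Unit => m) f Pc.Y i ()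
      - qv C wt (fun _ : Unit => m) f Pc.Y i () = _
    abel
  · exact absurd rfl hs

private theorem KWB_lEnt_ER (C : ERing k q R) (m : ℤ) (i : Fin 2)
    (f : (Lc C m).V) : lEnt C m Pc.R i ((Lc C m).E f) = - lEnt C m Pc.R i f := by
  change qv C wt (fun _ : Unit => m) ((Lc C m).E f) Pc.R i ()
    = - qv C wt (fun _ : Unit => m) f Pc.R i ()
  rw [qv_E]
  change (0 : R) + 0 - qv C wt (fun _ : Unit => m) f Pc.R i () = _
  abel

private theorem KWB_pEnt_D (C : ERing k q R) (n : ℤ) (s : Pc) (hs : s ≠ Pc.R) (j : Fin 2)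
    (f : (Pr C n).V) : pEnt C n s j ((Pr C n).D f) = 0 := by
  change qv C (fun _ : Unit => (0 : ℤ)) (wtn n) ((Pr C n).D f) s () j = 0
  rw [qv_D]
  cases s
  · rfl
  · rfl
  · exact absurd rfl hs

private theorem KWB_pEnt_DR (C : ERing k q R) (n : ℤ) (j : Fin 2)
    (f : (Pr C n).V) : pEnt C n Pc.R j ((Pr C n).D f) = pEnt C n Pc.Y j f - pEnt C n Pc.X j f := by
  change qv C (fun _ : Unit => (0 : ℤ)) (wtn n) ((Pr C n).D f) Pc.R () j = _
  rw [qv_D]
  rfl

private theorem KWB_kD_tmul (C : ERing k q R) (m n : ℤ) (f : (Lc C m).V) (g : (Pr C n).V)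
    (s s' : Pc) (i j : Fin 2) :
    kcomp C m n s i s' j (kD C m n (f ⊗ₜ[k] g))
      = lEnt C m s i ((Lc C m).D f) ⊗ₜ[k] pEnt C n s' j g
        + lEnt C m s i ((Lc C m).E f) ⊗ₜ[k] pEnt C n s' j ((Pr C n).D g) := by
  unfold kcomp kD
  rw [LinearMap.add_apply, map_add, TensorProduct.map_tmul, TensorProduct.map_tmul,
    TensorProduct.map_tmul, TensorProduct.map_tmul, LinearMap.id_apply]

private theorem KWB_tmul (C : ERing k q R) (m n : ℤ) (f : (Lc C m).V) (g : (Pr C n).V)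
    (s s' : Pc) (i j : Fin 2) :
    kcomp C m n s i s' j (f ⊗ₜ[k] g) = lEnt C m s i f ⊗ₜ[k] pEnt C n s' j g := by
  unfold kcomp
  rw [TensorProduct.map_tmul]

theorem kcomp_kD_even (C : ERing k q R) (m n : ℤ) (z : KK C m n) (i j : Fin 2) (s s' : Pc)
    (hs : s ≠ Pc.R) (hs' : s' ≠ Pc.R) : kcomp C m n s i s' j (kD C m n z) = 0 := by
  induction z using TensorProduct.induction_on with
  | zero => rw [map_zero, map_zero]
  | tmul f g =>
    rw [KWB_kD_tmul, KWB_lEnt_D C m s hs, KWB_pEnt_D C n s' hs', TensorProduct.zero_tmul,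
      TensorProduct.tmul_zero, add_zero]
  | add x y hx hy => rw [map_add, map_add, hx, hy, add_zero]

theorem kcomp_kD_left (C : ERing k q R) (m n : ℤ) (z : KK C m n) (i j : Fin 2) (s' : Pc)
    (hs' : s' ≠ Pc.R) : kcomp C m n Pc.R i s' j (kD C m n z)
      = kcomp C m n Pc.Y i s' j z - kcomp C m n Pc.X i s' j z := by
  induction z using TensorProduct.induction_on with
  | zero => simp only [map_zero, sub_zero]
  | tmul f g =>
    rw [KWB_kD_tmul, KWB_lEnt_DR, KWB_pEnt_D C n s' hs', TensorProduct.tmul_zero, add_zero,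
      TensorProduct.sub_tmul, KWB_tmul, KWB_tmul]
  | add x y hx hy => rw [map_add, map_add, hx, hy, map_add, map_add]; abel

theorem kcomp_kD_right (C : ERing k q R) (m n : ℤ) (z : KK C m n) (i j : Fin 2) (s : Pc)
    (hs : s ≠ Pc.R) : kcomp C m n s i Pc.R j (kD C m n z)
      = kcomp C m n s i Pc.Y j z - kcomp C m n s i Pc.X j z := by
  induction z using TensorProduct.induction_on with
  | zero => simp only [map_zero, sub_zero]
  | tmul f g =>
    rw [KWB_kD_tmul, KWB_lEnt_D C m s hs, KWB_lEnt_E C m s hs, KWB_pEnt_DR,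
      TensorProduct.zero_tmul, zero_add, TensorProduct.tmul_sub, KWB_tmul, KWB_tmul]
  | add x y hx hy => rw [map_add, map_add, hx, hy, map_add, map_add]; abel

theorem kcomp_kD_both (C : ERing k q R) (m n : ℤ) (z : KK C m n) (i j : Fin 2) :
    kcomp C m n Pc.R i Pc.R j (kD C m n z)
      = kcomp C m n Pc.Y i Pc.R j z - kcomp C m n Pc.X i Pc.R j z
        - kcomp C m n Pc.R i Pc.Y j z + kcomp C m n Pc.R i Pc.X j z := by
  induction z using TensorProduct.induction_on with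
  | zero => simp only [map_zero, sub_zero, add_zero]
  | tmul f g =>
    rw [KWB_kD_tmul, KWB_lEnt_DR, KWB_lEnt_ER, KWB_pEnt_DR,
      TensorProduct.sub_tmul, TensorProduct.tmul_sub, KWB_tmul, KWB_tmul, KWB_tmul, KWB_tmul,
      TensorProduct.neg_tmul, TensorProduct.neg_tmul]
    abel
  | add x y hx hy => rw [map_add, map_add, hx, hy, map_add, map_add, map_add, map_add]; abel

theorem mem_range_phi (W : DblRing k C D) (m n : ℤ) (z : KK C (m + 1) (n + 1)) :
    z ∈ LinearMap.range (phi C m n) ↔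
      ∀ s i s' j, W.mu (kcomp C (m + 1) (n + 1) s i s' j z) = 0 := by
  constructor
  · rintro ⟨y, rfl⟩ s i s' j
    rw [kcomp_phi, map_mul, mu_kz, zero_mul]
  · intro h
    have h1 : ∀ s i s' j, ∃ y ∈ TT (C.pc s (m - wt i)) (C.pc s' (wtn n j)),
        kcomp C (m + 1) (n + 1) s i s' j z = C.kz * y := by
      intro s i s' j
      obtain ⟨y, hy, hyz⟩ := ker_mu W s s' _ _ _ (kcomp_mem C (m + 1) (n + 1) z s i s' j)
        (h s i s' j)
      refine ⟨y, ?_, hyz⟩
      have e1 : m + 1 - wt i - 1 = m - wt i := by ring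
      have e2 : wtn (n + 1) j - 1 = wtn n j := by unfold wtn; ring
      rwa [e1, e2] at hy
    choose F hF hFz using h1
    obtain ⟨y, hy⟩ := kcomp_surjective C m n F hF
    refine ⟨y, ?_⟩
    refine sub_eq_zero.1 (kcomp_injective C (m + 1) (n + 1) _ fun s i s' j => ?_)
    rw [map_sub, kcomp_phi, hy, hFz, sub_self]

theorem exists_family (W : DblRing k C D) (m n : ℤ) (F : Pc → Fin 2 → Pc → Fin 2 → D)
    (hF : ∀ s i s' j, F s i s' j ∈ W.pc s s' (m - wt i + wtn n j)) :
    ∃ z : KK C m n, ∀ s i s' j, W.mu (kcomp C m n s i s' j z) = F s i s' j := by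
  have h1 : ∀ s i s' j, ∃ w ∈ TT (C.pc s (m - wt i)) (C.pc s' (wtn n j)),
      W.mu w = F s i s' j := by
    intro s i s' j
    have h2 := hF s i s' j
    rw [← map_mu] at h2
    obtain ⟨w, hw, hwF⟩ := h2
    exact ⟨w, hw, hwF⟩
  choose w hw hwF using h1
  obtain ⟨z, hz⟩ := kcomp_surjective C m n w hw
  exact ⟨z, fun s i s' j => by rw [hz, hwF]⟩

theorem psi_phi (W : DblRing k C D) (m n : ℤ) (z : KK C m n) :
    psi W (m + 1) (n + 1) (phi C m n z) = 0 := by
  have h : ∀ s i s' j, W.mu (kcomp C (m + 1) (n + 1) s i s' j (phi C m n z)) = 0 :=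
    (mem_range_phi W m n _).1 ⟨z, rfl⟩
  refine d_ext W ?_
  rw [map_zero]
  funext s
  ext i j
  cases s
  · rw [psi_X, h]; rfl
  · rw [psi_Y, h]; rfl
  · rw [psi_R, h, h, add_zero]; rfl

theorem psi_surjective (W : DblRing k C D) (m n : ℤ) : Function.Surjective (psi W m n) := by
  intro e
  have he : ∀ (s : Pc) (i j : Fin 2), dv W wt (wtn (m + n)) e s i j
      ∈ W.pd s (wtn (m + n) j - wt i) := fun s i j => dv_mem W e s i j
  have ew : ∀ i j : Fin 2, wtn (m + n) j - wt i = m - wt i + wtn n j := by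
    intro i j
    unfold wtn
    ring
  obtain ⟨z, hz⟩ := exists_family W m n (fun s i s' j => match s, s' with
    | Pc.X, Pc.X => dv W wt (wtn (m + n)) e Pc.X i j
    | Pc.Y, Pc.Y => dv W wt (wtn (m + n)) e Pc.Y i j
    | Pc.X, Pc.R => dv W wt (wtn (m + n)) e Pc.R i j
    | _, _ => 0) (by
      intro s i s' j
      cases s <;> cases s' <;> first | exact Submodule.mem_top | skip
      · exact he Pc.X i j
      · have h := he Pc.Y i j
        rw [ew] at h
        exact h)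
  refine ⟨z, d_ext W ?_⟩
  funext s
  ext i j
  cases s
  · rw [psi_X, hz]
  · rw [psi_Y, hz]
  · rw [psi_R, hz, hz]
    exact add_zero _

theorem psi_acyclic (W : DblRing k C D) (m n : ℤ) (z : KK C (m + 1) (n + 1))
    (h0 : psi W (m + 1) (n + 1) z = 0)
    (h1 : kD C (m + 1) (n + 1) z ∈ LinearMap.range (phi C m n)) :
    ∃ z' : KK C (m + 1) (n + 1), psi W (m + 1) (n + 1) z' = 0 ∧
      z - kD C (m + 1) (n + 1) z' ∈ LinearMap.range (phi C m n) := by
  rw [mem_range_phi W] at h1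
  have hz0 : ∀ (s : Pc) (i j : Fin 2),
      dv W wt (wtn (m + 1 + (n + 1))) (psi W (m + 1) (n + 1) z) s i j = 0 := by
    intro s i j
    rw [h0, map_zero]
    rfl
  have hXX : ∀ i j, W.mu (kcomp C (m + 1) (n + 1) Pc.X i Pc.X j z) = 0 := by
    intro i j
    rw [← psi_X, hz0]
  have hYY : ∀ i j, W.mu (kcomp C (m + 1) (n + 1) Pc.Y i Pc.Y j z) = 0 := by
    intro i j
    rw [← psi_Y, hz0]
  have hR : ∀ i j, W.mu (kcomp C (m + 1) (n + 1) Pc.X i Pc.R j z)
      + W.mu (kcomp C (m + 1) (n + 1) Pc.R i Pc.Y j z) = 0 := by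
    intro i j
    rw [← psi_R, hz0]
  have hYX : ∀ i j, W.mu (kcomp C (m + 1) (n + 1) Pc.Y i Pc.X j z) = 0 := by
    intro i j
    have h := h1 Pc.R i Pc.X j
    rw [kcomp_kD_left C _ _ _ _ _ _ (by decide), map_sub, hXX, sub_zero] at h
    exact h
  have hXY : ∀ i j, W.mu (kcomp C (m + 1) (n + 1) Pc.X i Pc.Y j z) = 0 := by
    intro i j
    have h := h1 Pc.R i Pc.Y j
    rw [kcomp_kD_left C _ _ _ _ _ _ (by decide), map_sub, hYY, zero_sub, neg_eq_zero] at h
    exact h
  have hRR : ∀ i j, W.mu (kcomp C (m + 1) (n + 1) Pc.Y i Pc.R j z)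
      - W.mu (kcomp C (m + 1) (n + 1) Pc.X i Pc.R j z)
      - W.mu (kcomp C (m + 1) (n + 1) Pc.R i Pc.Y j z)
      + W.mu (kcomp C (m + 1) (n + 1) Pc.R i Pc.X j z) = 0 := by
    intro i j
    have h := h1 Pc.R i Pc.R j
    rw [kcomp_kD_both, map_add, map_sub, map_sub] at h
    exact h
  obtain ⟨z', hz'⟩ := exists_family W (m + 1) (n + 1) (fun s i s' j => match s, s' with
    | Pc.X, Pc.Y => W.mu (kcomp C (m + 1) (n + 1) Pc.X i Pc.R j z)
    | Pc.Y, Pc.X => - W.mu (kcomp C (m + 1) (n + 1) Pc.Y i Pc.R j z)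
    | Pc.Y, Pc.R => W.mu (kcomp C (m + 1) (n + 1) Pc.R i Pc.R j z)
    | _, _ => 0) (by
      intro s i s' j
      cases s <;> cases s' <;> first | exact Submodule.mem_top | skip
      · exact Submodule.zero_mem _
      · exact Submodule.zero_mem _)
  have e1 : ∀ i j, W.mu (kcomp C (m + 1) (n + 1) Pc.X i Pc.X j z') = 0 := fun i j => hz' _ _ _ _
  have e2 : ∀ i j, W.mu (kcomp C (m + 1) (n + 1) Pc.Y i Pc.Y j z') = 0 := fun i j => hz' _ _ _ _
  have e3 : ∀ i j, W.mu (kcomp C (m + 1) (n + 1) Pc.X i Pc.R j z') = 0 := fun i j => hz' _ _ _ _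
  have e4 : ∀ i j, W.mu (kcomp C (m + 1) (n + 1) Pc.R i Pc.Y j z') = 0 := fun i j => hz' _ _ _ _
  have e5 : ∀ i j, W.mu (kcomp C (m + 1) (n + 1) Pc.R i Pc.X j z') = 0 := fun i j => hz' _ _ _ _
  have e6 : ∀ i j, W.mu (kcomp C (m + 1) (n + 1) Pc.X i Pc.Y j z')
      = W.mu (kcomp C (m + 1) (n + 1) Pc.X i Pc.R j z) := fun i j => hz' _ _ _ _
  have e7 : ∀ i j, W.mu (kcomp C (m + 1) (n + 1) Pc.Y i Pc.X j z')
      = - W.mu (kcomp C (m + 1) (n + 1) Pc.Y i Pc.R j z) := fun i j => hz' _ _ _ _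
  have e8 : ∀ i j, W.mu (kcomp C (m + 1) (n + 1) Pc.Y i Pc.R j z')
      = W.mu (kcomp C (m + 1) (n + 1) Pc.R i Pc.R j z) := fun i j => hz' _ _ _ _
  refine ⟨z', ?_, ?_⟩
  · refine d_ext W ?_
    rw [map_zero]
    funext s
    ext i j
    cases s
    · rw [psi_X, e1]; rfl
    · rw [psi_Y, e2]; rfl
    · rw [psi_R, e3, e4, add_zero]; rfl
  · rw [mem_range_phi W]
    intro s i s' j
    rw [map_sub, map_sub]
    cases s <;> cases s'
    · rw [hXX, kcomp_kD_even C _ _ _ _ _ _ _ (by decide) (by decide), map_zero, sub_zero]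
    · rw [hXY, kcomp_kD_even C _ _ _ _ _ _ _ (by decide) (by decide), map_zero, sub_zero]
    · rw [kcomp_kD_right C _ _ _ _ _ _ (by decide), map_sub, e6, e1, sub_zero, sub_self]
    · rw [hYX, kcomp_kD_even C _ _ _ _ _ _ _ (by decide) (by decide), map_zero, sub_zero]
    · rw [hYY, kcomp_kD_even C _ _ _ _ _ _ _ (by decide) (by decide), map_zero, sub_zero]
    · rw [kcomp_kD_right C _ _ _ _ _ _ (by decide), map_sub, e2, e7, zero_sub, neg_neg, sub_self]
    · rw [kcomp_kD_left C _ _ _ _ _ _ (by decide), map_sub, e7, e1, sub_zero, sub_neg_eq_add]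
      have h2 := hRR i j
      have h3 := hR i j
      have h4 : W.mu (kcomp C (m + 1) (n + 1) Pc.R i Pc.X j z)
          + W.mu (kcomp C (m + 1) (n + 1) Pc.Y i Pc.R j z)
          = (W.mu (kcomp C (m + 1) (n + 1) Pc.Y i Pc.R j z)
            - W.mu (kcomp C (m + 1) (n + 1) Pc.X i Pc.R j z)
            - W.mu (kcomp C (m + 1) (n + 1) Pc.R i Pc.Y j z)
            + W.mu (kcomp C (m + 1) (n + 1) Pc.R i Pc.X j z))
            + (W.mu (kcomp C (m + 1) (n + 1) Pc.X i Pc.R j z)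
              + W.mu (kcomp C (m + 1) (n + 1) Pc.R i Pc.Y j z)) := by abel
      rw [h4, h2, h3, add_zero]
    · rw [kcomp_kD_left C _ _ _ _ _ _ (by decide), map_sub, e2, e6, zero_sub, sub_neg_eq_add,
        add_comm]
      exact hR i j
    · rw [kcomp_kD_both, map_add, map_sub, map_sub, e8, e3, e4, e5]
      abel

end EE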