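import Pool.Agent.H2.EE.BimW
import Pool.Agent.H2.EE.KWB
import Pool.Agent.H2.EE.HomsS
import Pool.Agent.H36.NX.TensHom
import Pool.Agent.H36.NX.Coker

/-!
# HomsW : the bimodule maps `phi : K m n → K (m+1) (n+1)`, `psi : K m n → W (m+n)`, `G : Q n → W (n+2)`,
`π : W n → Q n`
-/

set_option autoImplicit false

open NC
open scoped TensorProduct

namespace EE

open H36.NX
variable {k : Type} [Field k] {q : ℕ} {R : Type} [CommRing R] [Algebra k R]
  {C : ERing k q R} {D : Type} [CommRing D] [Algebra k D]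

/-- difference of two maps of complexes -/
private noncomputable def hwSub {X Y : SD k} (f g : SD.Hom X Y) : SD.Hom X Y where
  f := f.f - g.f
  D v := by
    rw [LinearMap.sub_apply, LinearMap.sub_apply, map_sub, f.D, g.D]
  P v := by
    rw [LinearMap.sub_apply, LinearMap.sub_apply, map_sub, f.P, g.P]

private theorem hwSub_isHom {A B : DGA k} {X Y : SD k} {b : Bi A B X} {b' : Bi A B Y}
    {f g : SD.Hom X Y} (hf : b.IsHom b' f) (hg : b.IsHom b' g) : b.IsHom b' (hwSub f g) := by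
  constructor
  · intro a v
    change f.f (b.l.act a v) - g.f (b.l.act a v) = b'.l.act a (f.f v - g.f v)
    rw [map_sub, hf.l a v, hg.l a v]
  · intro v a
    change f.f (b.r.act v a) - g.f (b.r.act v a) = b'.r.act (f.f v - g.f v) a
    rw [map_sub, LinearMap.sub_apply, hf.r v a, hg.r v a]

/-- `phi` as a map of complexes -/
private noncomputable def hwPhi (C : ERing k q R) (m n : ℤ) :
    SD.Hom ((Lc C m).tens (Pr C n)) ((Lc C (m + 1)).tens (Pr C (n + 1))) :=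
  hwSub ((qInH C (lc_le' m)).tens (qUH C (pr_eq' n)))
    ((qUH C (lc_eq' m)).tens (qInH C (pr_le' n)))

private theorem hwPhi_f (C : ERing k q R) (m n : ℤ) : (hwPhi C m n).f = phi C m n := rfl

private theorem hwPhi_isHom (C : ERing k q R) (m n : ℤ) :
    (Kb C m n).b.IsHom (Kb C (m + 1) (n + 1)).b (hwPhi C m n) :=
  hwSub_isHom
    (isHom_tens _ _ (qInH_left C (lc_le' m)) (qUH_right C (pr_eq' n)))
    (isHom_tens _ _ (qUH_left C (lc_eq' m)) (qInH_right C (pr_le' n)))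

/-- `x ⊗ y ↦ x ⊗ u y - u x ⊗ y` -/
noncomputable def phiH (C : ERing k q R) (m n : ℤ) :
    BMod.Hom (Kb C m n) (Kb C (m + 1) (n + 1)) where
  f := phi C m n
  D v := (hwPhi C m n).D v
  P v := (hwPhi C m n).P v
  isHom := ⟨(hwPhi_isHom C m n).l, (hwPhi_isHom C m n).r⟩

private theorem hwPsi_D (W : DblRing k C D) (m n : ℤ) (v : KK C m n) :
    psi W m n (SD.tD (Lc C m) (Pr C n) v) = (dSD W wt (wtn (m + n))).D (psi W m n v) := by
  refine tens_ext (f := psi W m n ∘ₗ SD.tD (Lc C m) (Pr C n))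
    (g := (dSD W wt (wtn (m + n))).D ∘ₗ psi W m n) (fun x y => ?_) v
  refine d_ext W ?_
  change dv W wt (wtn (m + n)) (psi W m n ((Lc C m).D x ⊗ₜ[k] y + (Lc C m).E x ⊗ₜ[k] (Pr C n).D y))
    = dv W wt (wtn (m + n)) ((dSD W wt (wtn (m + n))).D (psi W m n (x ⊗ₜ[k] y)))
  rw [map_add, map_add, dv_psi_tmul, dv_psi_tmul, dv_D, dv_psi_tmul, qv_D, qv_D, qv_E]
  exact (cMul_D k (lrMul W (Fin 2) Unit (Fin 2)) _ _).symm

private theorem hwPsi_P (W : DblRing k C D) (m n : ℤ) (v : KK C m n) :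
    psi W m n (SD.tP (Lc C m) (Pr C n) v) = (dSD W wt (wtn (m + n))).P (psi W m n v) := by
  refine tens_ext (f := psi W m n ∘ₗ SD.tP (Lc C m) (Pr C n))
    (g := (dSD W wt (wtn (m + n))).P ∘ₗ psi W m n) (fun x y => ?_) v
  refine d_ext W ?_
  change dv W wt (wtn (m + n)) (psi W m n ((Lc C m).P x ⊗ₜ[k] (Pr C n).P y
      + (x - (Lc C m).P x) ⊗ₜ[k] (y - (Pr C n).P y)))
    = dv W wt (wtn (m + n)) ((dSD W wt (wtn (m + n))).P (psi W m n (x ⊗ₜ[k] y)))
  rw [map_add, map_add, dv_psi_tmul, dv_psi_tmul, dv_P, dv_psi_tmul, qv_P, qv_P, qv_sub_P,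
    qv_sub_P]
  exact (cMul_P k (lrMul W (Fin 2) Unit (Fin 2)) _ _).symm

private theorem hwPsi_l (W : DblRing k C D) (m n : ℤ) (a : (AA C).V) (v : KK C m n) :
    psi W m n (((qLA C (fun _ : Unit => m)).tensL (Pr C n)).act a v)
      = dMulL W (wtn (m + n)) a (psi W m n v) := by
  refine tens_ext (f := psi W m n ∘ₗ ((qLA C (fun _ : Unit => m)).tensL (Pr C n)).act a)
    (g := dMulL W (wtn (m + n)) a ∘ₗ psi W m n) (fun x y => ?_) v
  refine d_ext W ?_
  change dv W wt (wtn (m + n)) (psi W m n (qMulL C (fun _ : Unit => m) a x ⊗ₜ[k] y))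
    = dv W wt (wtn (m + n)) (dMulL W (wtn (m + n)) a (psi W m n (x ⊗ₜ[k] y)))
  rw [dv_psi_tmul, dv_dMulL, dv_psi_tmul, qv_qMulL]
  exact cMul_assoc k (matMul k R (Fin 2) (Fin 2) Unit) (lrMul W (Fin 2) Unit (Fin 2))
    (lrMul W (Fin 2) Unit (Fin 2)) (lMul W (Fin 2) (Fin 2) (Fin 2))
    (fun a b c => by
      rw [lrMul_apply, lMul_apply, lrMul_apply, matMul_apply, Matrix.map_mul, Matrix.mul_assoc])
    _ _ _

private theorem hwPsi_r (W : DblRing k C D) (m n : ℤ) (a : (AA C).V) (v : KK C m n) :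
    psi W m n (((qRA C (fun _ : Unit => (0 : ℤ)) n).tensR (Lc C m)).act v a)
      = dMulR W wt (m + n) (psi W m n v) a := by
  refine tens_ext
    (f := psi W m n ∘ₗ ((qRA C (fun _ : Unit => (0 : ℤ)) n).tensR (Lc C m)).act.flip a)
    (g := (dMulR W wt (m + n)).flip a ∘ₗ psi W m n) (fun x y => ?_) v
  refine d_ext W ?_
  change dv W wt (wtn (m + n))
      (psi W m n (x ⊗ₜ[k] qMulR C (fun _ : Unit => (0 : ℤ)) n y a))
    = dv W wt (wtn (m + n)) (dMulR W wt (m + n) (psi W m n (x ⊗ₜ[k] y)) a)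
  rw [dv_psi_tmul, dv_dMulR, dv_psi_tmul, qv_qMulR]
  exact (cMul_assoc k (lrMul W (Fin 2) Unit (Fin 2)) (rMul W (Fin 2) (Fin 2) (Fin 2))
    (matMul k R Unit (Fin 2) (Fin 2)) (lrMul W (Fin 2) Unit (Fin 2))
    (fun a b c => by
      rw [lrMul_apply, rMul_apply, lrMul_apply, matMul_apply, Matrix.map_mul, Matrix.mul_assoc])
    _ _ _).symm

/-- the cup product -/
noncomputable def psiH (W : DblRing k C D) (m n : ℤ) : BMod.Hom (Kb C m n) (Wb W (m + n)) where
  f := psi W m n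
  D v := hwPsi_D W m n v
  P v := hwPsi_P W m n v
  isHom := ⟨fun a v => hwPsi_l W m n a v, fun v a => hwPsi_r W m n a v⟩

/-- `f ↦ G f` on the explicit complexes -/
private noncomputable def hwG (W : DblRing k C D) (n : ℤ) :
    (qSD C wt (wtn n)).V →ₗ[k] (dSD W wt (wtn (n + q))).V where
  toFun := fun f => dmk W wt (wtn (n + q)) (gMap W (Fin 2) (Fin 2) (qv C wt (wtn n) f))
    (gMap_mem W (fun i j => by simp only [wtn]; ring) (qv_mem C f))
  map_add' := fun f f' => d_ext W (by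
    change gMap W (Fin 2) (Fin 2) (qv C wt (wtn n) (f + f'))
      = gMap W (Fin 2) (Fin 2) (qv C wt (wtn n) f)
        + gMap W (Fin 2) (Fin 2) (qv C wt (wtn n) f')
    rw [map_add, map_add])
  map_smul' := fun c f => d_ext W (by
    change gMap W (Fin 2) (Fin 2) (qv C wt (wtn n) (c • f))
      = c • gMap W (Fin 2) (Fin 2) (qv C wt (wtn n) f)
    rw [map_smul, map_smul])

private theorem dv_hwG (W : DblRing k C D) (n : ℤ) (f : (qSD C wt (wtn n)).V) :
    dv W wt (wtn (n + q)) (hwG W n f) = gMap W (Fin 2) (Fin 2) (qv C wt (wtn n) f) := rfl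

private theorem hwG_D (W : DblRing k C D) (n : ℤ) (v : (qSD C wt (wtn n)).V) :
    hwG W n ((qSD C wt (wtn n)).D v) = (dSD W wt (wtn (n + q))).D (hwG W n v) := d_ext W (by
  rw [dv_hwG, dv_D, dv_hwG, qv_D, gMap_D])

private theorem hwG_P (W : DblRing k C D) (n : ℤ) (v : (qSD C wt (wtn n)).V) :
    hwG W n ((qSD C wt (wtn n)).P v) = (dSD W wt (wtn (n + q))).P (hwG W n v) := d_ext W (by
  rw [dv_hwG, dv_P, dv_hwG, qv_P, gMap_P])

private theorem hwG_l (W : DblRing k C D) (n : ℤ) (a : (AA C).V) (v : (qSD C wt (wtn n)).V) :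
    hwG W n (qMulL C (wtn n) a v) = dMulL W (wtn (n + q)) a (hwG W n v) := d_ext W (by
  rw [dv_hwG, dv_dMulL, dv_hwG, qv_qMulL, gMap_left])

private theorem hwG_r (W : DblRing k C D) (n : ℤ) (v : (qSD C wt (wtn n)).V) (a : (AA C).V) :
    hwG W n (qMulR C wt n v a) = dMulR W wt (n + q) (hwG W n v) a := d_ext W (by
  rw [dv_hwG, dv_dMulR, dv_hwG, qv_qMulR, gMap_right])

/-- `f ↦ G f` -/
noncomputable def gH (W : DblRing k C D) (n : ℤ) : BMod.Hom (Qb C n) (Wb W (n + q)) where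
  f :=
    { toFun := fun f => dmk W wt (wtn (n + q)) (gMap W (Fin 2) (Fin 2) (qv C wt (wtn n) f))
        (gMap_mem W (fun i j => by simp only [wtn]; ring) (qv_mem C f))
      map_add' := fun f f' => (hwG W n).map_add f f'
      map_smul' := fun c f => (hwG W n).map_smul c f }
  D v := hwG_D W n v
  P v := hwG_P W n v
  isHom := ⟨fun a v => hwG_l W n a v, fun v a => hwG_r W n v a⟩

/-- the projection on the explicit complexes -/
private noncomputable def hwPi (W : DblRing k C D) (n : ℤ) :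
    (dSD W wt (wtn n)).V →ₗ[k] (qSD C wt (wtn n)).V where
  toFun := fun f => qmk C wt (wtn n) (pMap W (Fin 2) (Fin 2) (dv W wt (wtn n) f))
    (pMap_mem W wt (wtn n) (dv_mem W f))
  map_add' := fun f f' => q_ext C (by
    change pMap W (Fin 2) (Fin 2) (dv W wt (wtn n) (f + f'))
      = pMap W (Fin 2) (Fin 2) (dv W wt (wtn n) f)
        + pMap W (Fin 2) (Fin 2) (dv W wt (wtn n) f')
    rw [map_add, map_add])
  map_smul' := fun c f => q_ext C (by
    change pMap W (Fin 2) (Fin 2) (dv W wt (wtn n) (c • f))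
      = c • pMap W (Fin 2) (Fin 2) (dv W wt (wtn n) f)
    rw [map_smul, map_smul])

private theorem qv_hwPi (W : DblRing k C D) (n : ℤ) (f : (dSD W wt (wtn n)).V) :
    qv C wt (wtn n) (hwPi W n f) = pMap W (Fin 2) (Fin 2) (dv W wt (wtn n) f) := rfl

private theorem hwPi_D (W : DblRing k C D) (n : ℤ) (v : (dSD W wt (wtn n)).V) :
    hwPi W n ((dSD W wt (wtn n)).D v) = (qSD C wt (wtn n)).D (hwPi W n v) := q_ext C (by
  rw [qv_hwPi, qv_D, qv_hwPi, dv_D, pMap_D])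

private theorem hwPi_P (W : DblRing k C D) (n : ℤ) (v : (dSD W wt (wtn n)).V) :
    hwPi W n ((dSD W wt (wtn n)).P v) = (qSD C wt (wtn n)).P (hwPi W n v) := q_ext C (by
  rw [qv_hwPi, qv_P, qv_hwPi, dv_P, pMap_P])

private theorem hwPi_l (W : DblRing k C D) (n : ℤ) (a : (AA C).V) (v : (dSD W wt (wtn n)).V) :
    hwPi W n (dMulL W (wtn n) a v) = qMulL C (wtn n) a (hwPi W n v) := q_ext C (by
  rw [qv_hwPi, qv_qMulL, qv_hwPi, dv_dMulL, pMap_left])

private theorem hwPi_r (W : DblRing k C D) (n : ℤ) (v : (dSD W wt (wtn n)).V) (a : (AA C).V) :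
    hwPi W n (dMulR W wt n v a) = qMulR C wt n (hwPi W n v) a := q_ext C (by
  rw [qv_hwPi, qv_qMulR, qv_hwPi, dv_dMulR, pMap_right])

private theorem hwPi_hwG (W : DblRing k C D) (n : ℤ) (v : (qSD C wt (wtn n)).V) :
    hwPi W (n + q) (hwG W n v) = qS C (fun s => C.dl_mem_pc s le_rfl) (q_eqd n q) v := q_ext C (by
  rw [qv_hwPi, dv_hwG, qv_qS, pMap_gMap])

/-- the projection -/
noncomputable def piH (W : DblRing k C D) (n : ℤ) : BMod.Hom (Wb W n) (Qb C n) where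
  f :=
    { toFun := fun f => qmk C wt (wtn n) (pMap W (Fin 2) (Fin 2) (dv W wt (wtn n) f))
        (pMap_mem W wt (wtn n) (dv_mem W f))
      map_add' := fun f f' => (hwPi W n).map_add f f'
      map_smul' := fun c f => (hwPi W n).map_smul c f }
  D v := hwPi_D W n v
  P v := hwPi_P W n v
  isHom := ⟨fun a v => hwPi_l W n a v, fun v a => hwPi_r W n v a⟩

/-- `π (G f) = Q f` -/
theorem piH_gH (W : DblRing k C D) (n : ℤ) (v : (Qb C n).N.V) :
    (piH W (n + q)).f ((gH W n).f v) = (qq C n).f v := by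
  exact hwPi_hwG W n v

/-- `coker phi → W` -/
noncomputable def psiBar (W : DblRing k C D) (m n : ℤ) :
    BMod.Hom (BMod.coker (phiH C m n)) (Wb W (m + 1 + (n + 1))) :=
  BMod.cokerDesc (phiH C m n) (psiH W (m + 1) (n + 1)) (fun x => psi_phi W m n x)

/-- the projection of `K` on the cokernel of `phi` -/
private noncomputable def hwQ (C : ERing k q R) (m n : ℤ) :
    KK C (m + 1) (n + 1) →ₗ[k] (BMod.coker (phiH C m n)).N.V :=
  (BMod.cokerπ (phiH C m n)).f

private theorem hwQ_zero (C : ERing k q R) (m n : ℤ) {z : KK C (m + 1) (n + 1)}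
    (h : z ∈ LinearMap.range (phi C m n)) : hwQ C m n z = 0 := by
  obtain ⟨x, hx⟩ := h
  exact (BMod.cokerπ_eq_zero (phiH C m n) _).2 ⟨x, hx⟩

private theorem hwQ_mem (C : ERing k q R) (m n : ℤ) {z : KK C (m + 1) (n + 1)}
    (h : hwQ C m n z = 0) : z ∈ LinearMap.range (phi C m n) := by
  obtain ⟨x, hx⟩ := (BMod.cokerπ_eq_zero (phiH C m n) _).1 h
  exact ⟨x, hx⟩

private theorem hwQ_D (C : ERing k q R) (m n : ℤ) (z : KK C (m + 1) (n + 1)) :
    (BMod.coker (phiH C m n)).N.D (hwQ C m n z) = hwQ C m n (kD C (m + 1) (n + 1) z) := rfl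

private theorem hw_kDD (C : ERing k q R) (m n : ℤ) (z : KK C m n) :
    kD C m n (kD C m n z) = 0 :=
  ((Lc C m).tens (Pr C n)).DD z

private theorem hw_inj (W : DblRing k C D) (m n : ℤ) (z0 z1 : KK C (m + 1) (n + 1))
    (h0 : hwQ C m n (kD C (m + 1) (n + 1) z0) = 0)
    (h1 : psi W (m + 1) (n + 1) z0
      = (dSD W wt (wtn (m + 1 + (n + 1)))).D (psi W (m + 1) (n + 1) z1)) :
    ∃ z2 : KK C (m + 1) (n + 1), hwQ C m n (kD C (m + 1) (n + 1) z2) = hwQ C m n z0 := by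
  have e3 : psi W (m + 1) (n + 1) (kD C (m + 1) (n + 1) z1)
      = (dSD W wt (wtn (m + 1 + (n + 1)))).D (psi W (m + 1) (n + 1) z1) :=
    hwPsi_D W (m + 1) (n + 1) z1
  have e4 : psi W (m + 1) (n + 1) (z0 - kD C (m + 1) (n + 1) z1) = 0 := by
    rw [map_sub, h1, e3, sub_self]
  have e6 : kD C (m + 1) (n + 1) (z0 - kD C (m + 1) (n + 1) z1)
      ∈ LinearMap.range (phi C m n) := by
    rw [map_sub, hw_kDD, sub_zero]
    exact hwQ_mem C m n h0
  obtain ⟨z', _, h2⟩ := psi_acyclic W m n _ e4 e6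
  refine ⟨z1 + z', ?_⟩
  have e7 := hwQ_zero C m n h2
  rw [map_sub, map_sub, sub_sub] at e7
  rw [map_add, map_add]
  exact (sub_eq_zero.1 e7).symm

private theorem hw_surj (W : DblRing k C D) (m n : ℤ) (z1 : KK C (m + 1) (n + 1))
    (h : (dSD W wt (wtn (m + 1 + (n + 1)))).D (psi W (m + 1) (n + 1) z1) = 0) :
    ∃ z2 : KK C (m + 1) (n + 1), hwQ C m n (kD C (m + 1) (n + 1) z2) = 0 ∧
      psi W (m + 1) (n + 1) z2 = psi W (m + 1) (n + 1) z1 := by
  have e3 : psi W (m + 1) (n + 1) (kD C (m + 1) (n + 1) z1)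
      = (dSD W wt (wtn (m + 1 + (n + 1)))).D (psi W (m + 1) (n + 1) z1) :=
    hwPsi_D W (m + 1) (n + 1) z1
  have e4 : psi W (m + 1) (n + 1) (kD C (m + 1) (n + 1) z1) = 0 := by
    rw [e3, h]
  have e6 : kD C (m + 1) (n + 1) (kD C (m + 1) (n + 1) z1)
      ∈ LinearMap.range (phi C m n) := by
    rw [hw_kDD]
    exact Submodule.zero_mem _
  obtain ⟨z', h1, h2⟩ := psi_acyclic W m n _ e4 e6
  refine ⟨z1 - z', ?_, ?_⟩
  · rw [map_sub]
    exact hwQ_zero C m n h2
  · rw [map_sub, h1, sub_zero]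

/-- surjective, with acyclic kernel (`psi_surjective`, `psi_acyclic`) -/
theorem psiBar_qi (W : DblRing k C D) (m n : ℤ) : (psiBar W m n).toHom.QI := by
  constructor
  · intro x y hx hxy
    obtain ⟨z0, rfl⟩ := BMod.cokerπ_surjective (phiH C m n) x
    obtain ⟨z1, rfl⟩ := psi_surjective W (m + 1) (n + 1) y
    obtain ⟨z2, h2⟩ := hw_inj W m n z0 z1 hx hxy
    exact ⟨hwQ C m n z2, h2⟩
  · intro y hy
    obtain ⟨z1, rfl⟩ := psi_surjective W (m + 1) (n + 1) y
    obtain ⟨z2, h2, h3⟩ := hw_surj W m n z1 hy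
    refine ⟨hwQ C m n z2, 0, h2, ?_⟩
    rw [map_zero, add_zero]
    exact h3.symm

end EE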