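import Pool.Agent.H2.EE.AA
import Pool.Agent.H15.EE.Iso


/-!
# Iso : the Čech model `AA (toE C)` and the matrix model `C.AE` of the dg algebra of the curve

MP_eadf0f_ag, block E. `toE C : EE.ERing k q R` is the same ring as `C : EK.CurR q k R`; `cechE C` says that the elements
of `AA (toE C)` are the Čech matrices of sections. `PF_AE_of`: smoothness goes from
`AA (toE C)` to `C.AE`.
-/

set_option autoImplicit false

open NC

namespace EE

open H36.NX

variable {q : ℕ} {k : Type} [Field k] {R : Type} [CommRing R] [Algebra k R]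

/-- the ring of the curve, in the format of the Čech model -/
noncomputable def toE (C : EK.CurR q k R) : ERing k q R where
  hq := C.hq
  u := C.u
  w := C.a
  bas := C.bas
  bas_eq := C.bas_eq
  rel := C.rel

theorem toE_X (C : EK.CurR q k R) : (toE C).X = C.X := rfl

theorem toE_Y (C : EK.CurR q k R) (n : ℤ) : (toE C).Y n = C.Y n := rfl

theorem toE_pc (C : EK.CurR q k R) (s : Pc) (n : ℤ) : (toE C).pc s n = C.pc s n := by
  cases s <;> rfl

/-- the elements of `AA (toE C)` are the Čech matrices of sections -/
noncomputable def cechE (C : EK.CurR q k R) : EK.CechE C (AA (toE C)) where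
  v := qv (toE C) wt wt
  inj := qv_injective (toE C)
  mem := fun f s i j => by
    have h := (mem_QQ (toE C) wt wt _).1 (qv_mem (toE C) f) s i j
    rw [toE_pc] at h
    exact h
  surj := fun g hg => ⟨qmk (toE C) wt wt g ((mem_QQ (toE C) wt wt g).2 (fun s i j => by
    rw [toE_pc]
    exact hg s i j)), rfl⟩
  D_X := fun _ => rfl
  D_Y := fun _ => rfl
  D_R := fun _ => rfl
  P_X := fun _ => rfl
  P_Y := fun _ => rfl
  P_R := fun _ => rfl
  mul_X := fun _ _ => rfl
  mul_Y := fun _ _ => rfl
  mul_R := fun _ _ => rfl
  one_X := rfl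
  one_Y := rfl
  one_R := rfl

/-- smoothness of the matrix model from smoothness of the Čech model -/
theorem PF_AE_of (C : EK.CurR q k R) (h : PF (AA (toE C)) (BMod.diag (AA (toE C)))) :
    PF C.AE.toDGA (BMod.diag C.AE.toDGA) := (cechE C).PF_AE h

end EE
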