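import Pool.Agent.H2.EE.Alg

/-!
# Kos : inclusion, multiplication by `u` and by `w` on Čech matrices, and the exact Koszul sequence
`0 → QQ α β → QQ α (β+1) × QQ α (β+1) → QQ α (β+2) → 0`, `c ↦ (- u c, c)`, `(c, c') ↦ c + u c'`.
-/

set_option autoImplicit false

open NC

namespace EE

open H36.NX
variable {k : Type} [Field k] {q : ℕ} {R : Type} [CommRing R] [Algebra k R]
  {I J : Type}

/-- multiplication of all entries by an element of `R` -/
def smulR (k : Type) [Field k] {R : Type} [CommRing R] [Algebra k R] (I J : Type) (r : R) :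
    (Pc → Matrix I J R) →ₗ[k] (Pc → Matrix I J R) where
  toFun f := fun s => r • f s
  map_add' f g := by funext s; simp
  map_smul' c f := by funext s; exact (smul_comm c r (f s)).symm

@[simp] theorem smulR_apply (r : R) (f : Pc → Matrix I J R) (s : Pc) (i : I) (j : J) :
    smulR k I J r f s i j = r * f s i j := rfl

theorem smulR_D (r : R) (f : Pc → Matrix I J R) :
    smulR k I J r (cD k _ f) = cD k _ (smulR k I J r f) := by
  funext s; cases s <;> ext i j <;> simp [mul_sub]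

theorem smulR_P (r : R) (f : Pc → Matrix I J R) :
    smulR k I J r (cP k _ f) = cP k _ (smulR k I J r f) := by
  funext s; cases s <;> ext i j <;> simp

theorem smulR_left {L : Type} [Fintype J] (r : R) (f : Pc → Matrix I J R)
    (g : Pc → Matrix J L R) :
    smulR k I L r (cMul k (matMul k R I J L) f g)
      = cMul k (matMul k R I J L) (smulR k I J r f) g := by
  have h : ∀ (M : Matrix I J R) (N : Matrix J L R), r • (M * N) = (r • M) * N :=
    fun M N => by simp
  funext s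
  cases s
  · change r • (f Pc.X * g Pc.X) = (r • f Pc.X) * g Pc.X
    exact h _ _
  · change r • (f Pc.Y * g Pc.Y) = (r • f Pc.Y) * g Pc.Y
    exact h _ _
  · change r • (f Pc.X * g Pc.R + f Pc.R * g Pc.Y) = (r • f Pc.X) * g Pc.R + (r • f Pc.R) * g Pc.Y
    rw [smul_add, h, h]

theorem smulR_right {L : Type} [Fintype J] (r : R) (f : Pc → Matrix I J R)
    (g : Pc → Matrix J L R) :
    smulR k I L r (cMul k (matMul k R I J L) f g)
      = cMul k (matMul k R I J L) f (smulR k J L r g) := by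
  have h : ∀ (M : Matrix I J R) (N : Matrix J L R), r • (M * N) = M * (r • N) :=
    fun M N => by simp
  funext s
  cases s
  · change r • (f Pc.X * g Pc.X) = f Pc.X * (r • g Pc.X)
    exact h _ _
  · change r • (f Pc.Y * g Pc.Y) = f Pc.Y * (r • g Pc.Y)
    exact h _ _
  · change r • (f Pc.X * g Pc.R + f Pc.R * g Pc.Y) = f Pc.X * (r • g Pc.R) + f Pc.R * (r • g Pc.Y)
    rw [smul_add, h, h]

theorem QQ_le (C : ERing k q R) {α α' : I → ℤ} {β β' : J → ℤ}
    (h : ∀ i j, β j - α i ≤ β' j - α' i) : QQ C α β ≤ QQ C α' β' :=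
  fun _ hf s i j => C.pc_mono s (h i j) (hf s i j)

theorem u_smul_mem_QQ (C : ERing k q R) {α α' : I → ℤ} {β β' : J → ℤ}
    (h : ∀ i j, β j - α i + 1 = β' j - α' i) {f : Pc → Matrix I J R} (hf : f ∈ QQ C α β) :
    smulR k I J (C.u : R) f ∈ QQ C α' β' := by
  intro s i j
  rw [← h i j, smulR_apply, add_comm]
  exact C.pc_mul_mem s (C.u_mem_pc s le_rfl) (hf s i j)

/-- multiplication by a section of `O(d)` -/
theorem s_smul_mem_QQ (C : ERing k q R) {r : R} {d : ℤ} (hr : ∀ s, r ∈ C.pc s d) {α α' : I → ℤ}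
    {β β' : J → ℤ} (h : ∀ i j, β j - α i + d = β' j - α' i) {f : Pc → Matrix I J R}
    (hf : f ∈ QQ C α β) : smulR k I J r f ∈ QQ C α' β' := by
  intro s i j
  rw [← h i j, smulR_apply, add_comm]
  exact C.pc_mul_mem s (hr s) (hf s i j)

theorem w_smul_mem_QQ (C : ERing k q R) {α α' : I → ℤ} {β β' : J → ℤ}
    (h : ∀ i j, β j - α i + q = β' j - α' i) {f : Pc → Matrix I J R} (hf : f ∈ QQ C α β) :
    smulR k I J C.w f ∈ QQ C α' β' :=
  s_smul_mem_QQ C (fun s => C.w_mem_pc s le_rfl) h hf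

theorem dl_smul_mem_QQ (C : ERing k q R) {α α' : I → ℤ} {β β' : J → ℤ}
    (h : ∀ i j, β j - α i + q = β' j - α' i) {f : Pc → Matrix I J R} (hf : f ∈ QQ C α β) :
    smulR k I J C.dl f ∈ QQ C α' β' :=
  s_smul_mem_QQ C (fun s => C.dl_mem_pc s le_rfl) h hf

/-- exactness in the middle of the Koszul sequence -/
theorem koszul_mid (C : ERing k q R) {α₀ α₁ : I → ℤ} {β₀ β₁ : J → ℤ}
    (h : ∀ i j, β₀ j - α₀ i + 1 = β₁ j - α₁ i) {c c' : Pc → Matrix I J R}
    (hc : c ∈ QQ C α₁ β₁) (hc' : c' ∈ QQ C α₁ β₁) (h0 : c + smulR k I J (C.u : R) c' = 0) :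
    c' ∈ QQ C α₀ β₀ ∧ c = - smulR k I J (C.u : R) c' := by
  refine ⟨?_, eq_neg_of_add_eq_zero_left h0⟩
  intro s i j
  have h1 : c s i j = - ((C.u : R) * c' s i j) := by
    have := congrFun (congrFun (congrFun (eq_neg_of_add_eq_zero_left h0) s) i) j
    simpa using this
  cases s with
  | X => exact hc' Pc.X i j
  | Y =>
    have h2 : (C.u : R) * c' Pc.Y i j ∈ C.Y (β₁ j - α₁ i) := by
      have h3 := (C.Y (β₁ j - α₁ i)).neg_mem (hc Pc.Y i j)
      rwa [h1, neg_neg] at h3
    have h4 := (C.upow_mul_mem_Y_iff 1 (β₀ j - α₀ i) (c' Pc.Y i j)).1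
    rw [zpow_one, h i j] at h4
    exact h4 h2
  | R => exact Submodule.mem_top

/-- surjectivity of the second map of the Koszul sequence -/
theorem koszul_right (C : ERing k q R) {α₁ α₂ : I → ℤ} {β₁ β₂ : J → ℤ}
    (h : ∀ i j, β₁ j - α₁ i + 1 = β₂ j - α₂ i) {e : Pc → Matrix I J R} (he : e ∈ QQ C α₂ β₂) :
    ∃ c ∈ QQ C α₁ β₁, ∃ c' ∈ QQ C α₁ β₁, e = c + smulR k I J (C.u : R) c' := by
  refine ⟨fun s => match s with
    | Pc.X => e Pc.X
    | Pc.Y => 0
    | Pc.R => e Pc.R, ?_, fun s => match s with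
    | Pc.X => 0
    | Pc.Y => ((C.u⁻¹ : Rˣ) : R) • e Pc.Y
    | Pc.R => 0, ?_, ?_⟩
  · intro s i j
    cases s with
    | X => exact he Pc.X i j
    | Y => exact (C.Y _).zero_mem
    | R => exact Submodule.mem_top
  · intro s i j
    cases s with
    | X => exact C.X.zero_mem
    | Y =>
      have h4 := (C.upow_mul_mem_Y_iff 1 (β₁ j - α₁ i) (((C.u⁻¹ : Rˣ) : R) * e Pc.Y i j)).1
      rw [zpow_one, h i j, ← mul_assoc, Units.mul_inv, one_mul] at h4
      exact h4 (he Pc.Y i j)
    | R => exact Submodule.mem_top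
  · funext s
    cases s
    · ext i j; simp
    · ext i j
      simp only [Pi.add_apply, Matrix.add_apply, smulR_apply, Matrix.zero_apply, zero_add,
        Matrix.smul_apply, smul_eq_mul]
      rw [← mul_assoc, Units.mul_inv, one_mul]
    · ext i j; simp

end EE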