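import Pool.Agent.H2.EE.Alg

/-!
# RegY : sections `s` of `O(d)` which do not vanish at the points with `x = 0`

For such a section `s z = 0` implies `z = 0`, `Y n + s R = R` and `Y n ∩ s R = s Y (n - d)`.
-/

set_option autoImplicit false

namespace EE

open H36.NX

variable {k : Type} [Field k] {q : ℕ} {R : Type} [CommRing R] [Algebra k R]

/-- `s` is a section of `O(d)` which does not vanish at the points with `x = 0` -/
structure RegY (C : ERing k q R) (s : R) (d : ℤ) : Prop where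
  memX : s ∈ C.X
  memY : s ∈ C.Y d
  chartY : ∃ e : ℤ, ∃ s' ∈ C.Y e, ∃ c : k, c ≠ 0 ∧ ∃ r ∈ C.Y (d + e - 1),
    s * s' = algebraMap k R c * ((C.u ^ (d + e) : Rˣ) : R) + r

namespace RegY

variable {C : ERing k q R} {s : R} {d : ℤ}

theorem mem_pc (h : RegY C s d) (p : Pc) : s ∈ C.pc p d := by
  cases p with
  | X => exact h.memX
  | Y => exact h.memY
  | R => exact Submodule.mem_top

private theorem reg_inv (R : Type) [CommRing R] [Algebra k R] {c : k} (hc : c ≠ 0) :
    algebraMap k R c⁻¹ * algebraMap k R c = 1 := by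
  rw [← map_mul, inv_mul_cancel₀ hc, map_one]

private theorem reg_smul_mem (P : Submodule k R) (c : k) {r : R} (h : r ∈ P) :
    algebraMap k R c * r ∈ P := by
  rw [← Algebra.smul_def]
  exact P.smul_mem c h

private theorem reg_smul_mem_iff (P : Submodule k R) {c : k} (hc : c ≠ 0) {r : R}
    (h : algebraMap k R c * r ∈ P) : r ∈ P := by
  have h1 := reg_smul_mem P c⁻¹ h
  rwa [← mul_assoc, reg_inv R hc, one_mul] at h1

private theorem reg_u (C : ERing k q R) (m n : ℤ) :
    ((C.u ^ m : Rˣ) : R) * ((C.u ^ n : Rˣ) : R) = ((C.u ^ (m + n) : Rˣ) : R) := by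
  rw [← Units.val_mul, ← zpow_add]

private theorem reg_u0 (C : ERing k q R) (m : ℤ) :
    ((C.u ^ (-m) : Rˣ) : R) * ((C.u ^ m : Rˣ) : R) = 1 := by
  rw [reg_u, neg_add_cancel, zpow_zero, Units.val_one]

private theorem reg_Yu {m n : ℤ} {r : R} (h : r ∈ C.Y n) :
    ((C.u ^ m : Rˣ) : R) * r ∈ C.Y (m + n) :=
  C.mul_mem_Y (C.upow_mem_Y le_rfl) h

/-- `Y n + s R = R` -/
theorem supY (h : RegY C s d) (n : ℤ) (r : R) : ∃ y ∈ C.Y n, ∃ z : R, r = y + s * z := by
  obtain ⟨e, s', hs', c, hc, t, ht, he⟩ := h.chartY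
  have hi := reg_inv R hc
  have hu := reg_u0 C (d + e)
  have key : ∀ (j : ℕ) (r : R), r ∈ C.Y (n + j) → ∃ y ∈ C.Y n, ∃ z : R, r = y + s * z := by
    intro j
    induction j with
    | zero =>
      intro r hr
      exact ⟨r, by simpa using hr, 0, by ring⟩
    | succ j ih =>
      intro r hr
      obtain ⟨y, hy, z, hz⟩ := ih (((C.u ^ (-(d + e)) : Rˣ) : R) * (t * r)) (by
        have h1 := reg_Yu (C := C) (m := -(d + e)) (C.mul_mem_Y ht hr)
        rwa [show -(d + e) + (d + e - 1 + (n + ((j + 1 : ℕ) : ℤ))) = n + (j : ℤ) by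
          push_cast; ring] at h1)
      refine ⟨algebraMap k R c⁻¹ * (-y), reg_smul_mem _ _ ((C.Y n).neg_mem hy),
        algebraMap k R c⁻¹ * (((C.u ^ (-(d + e)) : Rˣ) : R) * (s' * r) - z), ?_⟩
      linear_combination (-r) * hi - algebraMap k R c⁻¹ * hz
        - algebraMap k R c⁻¹ * ((C.u ^ (-(d + e)) : Rˣ) : R) * r * he
        - algebraMap k R c⁻¹ * algebraMap k R c * r * hu
  obtain ⟨m, hm⟩ := C.exists_mem_Y r
  exact key (m - n).toNat r (C.Y_mono (by omega) hm)

/-- `Y n ∩ s R = s Y (n - d)` -/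
theorem infY (h : RegY C s d) {m n : ℤ} (hmn : m + d = n) {z : R} (hz : s * z ∈ C.Y n) :
    z ∈ C.Y m := by
  obtain ⟨e, s', hs', c, hc, t, ht, he⟩ := h.chartY
  have hu := reg_u0 C (d + e)
  have key : ∀ (j : ℕ), z ∈ C.Y (m + j) → z ∈ C.Y m := by
    intro j
    induction j with
    | zero => intro h0; simpa using h0
    | succ j ih =>
      intro h1
      refine ih (reg_smul_mem_iff (C.Y (m + j)) hc ?_)
      have e1 : algebraMap k R c * z
          = ((C.u ^ (-(d + e)) : Rˣ) : R) * (s' * (s * z))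
            - ((C.u ^ (-(d + e)) : Rˣ) : R) * (t * z) := by
        linear_combination (-((C.u ^ (-(d + e)) : Rˣ) : R) * z) * he
          - algebraMap k R c * z * hu
      rw [e1]
      refine (C.Y _).sub_mem ?_ ?_
      · refine C.Y_mono ?_ (reg_Yu (C := C) (m := -(d + e)) (C.mul_mem_Y hs' hz))
        rw [← hmn]
        omega
      · refine C.Y_mono ?_ (reg_Yu (C := C) (m := -(d + e)) (C.mul_mem_Y ht h1))
        push_cast
        omega
  obtain ⟨n', hn'⟩ := C.exists_mem_Y z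
  exact key (n' - m).toNat (C.Y_mono (by omega) hn')

/-- `s` is not a zero divisor -/
theorem inj (h : RegY C s d) (z : R) (hz : s * z = 0) : z = 0 := by
  refine C.eq_zero_of_mem_Y z fun n => ?_
  exact h.infY (n := n + d) rfl (by rw [hz]; exact Submodule.zero_mem _)

end RegY

theorem upow_nat (C : ERing k q R) (n : ℕ) : ((C.u ^ (n : ℤ) : Rˣ) : R) = (C.u : R) ^ n := by
  rw [zpow_natCast, Units.val_pow_eq_pow_val]

theorem unat_mem_Y (C : ERing k q R) {i : ℕ} {n : ℤ} (h : (i : ℤ) ≤ n) : (C.u : R) ^ i ∈ C.Y n := by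
  rw [← upow_nat]
  exact C.upow_mem_Y h

/-- `dl^2 = Q^2 + 4` -/
theorem dl_sq (C : ERing k q R) : C.dl * C.dl = C.Q ^ 2 + 4 := by
  have h := C.rel'
  rw [C.dl_eq]
  linear_combination 4 * h

/-- the different -/
theorem regY_dl (C : ERing k q R) : RegY C C.dl q where
  memX := C.dl_mem_X
  memY := C.dl_mem_Y le_rfl
  chartY := by
    have hq : (2 : ℤ) ≤ q := by exact_mod_cast C.hq
    refine ⟨q, C.dl, C.dl_mem_Y le_rfl, 1, one_ne_zero,
      - (2 : k) • ((C.u : R) ^ (q + 1)) + (C.u : R) ^ 2 + (4 : k) • (C.u : R) ^ 0, ?_, ?_⟩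
    · refine (C.Y _).add_mem ((C.Y _).add_mem ((C.Y _).smul_mem _ (unat_mem_Y C ?_))
        (unat_mem_Y C ?_)) ((C.Y _).smul_mem _ (unat_mem_Y C ?_))
      · push_cast; omega
      · push_cast; omega
      · push_cast; omega
    · rw [dl_sq, C.Q_eq, map_one, one_mul, show ((q : ℤ) + q) = ((q + q : ℕ) : ℤ) by push_cast; rfl,
        upow_nat, Algebra.smul_def, Algebra.smul_def, map_neg, map_ofNat, map_ofNat]
      ring

end EE
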