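import Pool.Agent.H2.EE.SmK
import Pool.Agent.H2.EE.HomsW
import Pool.Agent.H2.EE.Q0
import Pool.Agent.H2.EE.RegY

/-!
# SmQ : the bimodules `W n` are perfect; the diagonal bimodule is perfect if the cokernel of the different
`Q n → Q (n+q)` is
-/

set_option autoImplicit false

open NC

namespace EE

open H36.NX
variable {k : Type} [Field k] {q : ℕ} {R : Type} [CommRing R] [Algebra k R]
  {C : ERing k q R} {D : Type} [CommRing D] [Algebra k D]

theorem phi_inj (C : ERing k q R) (m n : ℤ) : Function.Injective (phiH C m n).f :=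
  phi_injective C m n

theorem PF_coker_phi (C : ERing k q R) (m n : ℤ) :
    PF (AA C) (BMod.coker (phiH C m n)) :=
  PF.ses1 (phiH C m n) (BMod.cokerπ (phiH C m n)) (BMod.coker_ses _ (phi_injective C m n))
    (PF_K C m n) (PF_K C (m + 1) (n + 1))

theorem PF_W (W : DblRing k C D) (n : ℤ) : PF (AA C) (Wb W n) := by
  have h := PF.qi (psiBar W (-1) (n - 1)) (psiBar_qi W (-1) (n - 1)) (PF_coker_phi C (-1) (n - 1))
  have e : (-1 : ℤ) + 1 + (n - 1 + 1) = n := by ring
  rwa [e] at h

theorem qS_injective {I J : Type} (C : ERing k q R) {r : R} {d : ℤ} (hr : ∀ s, r ∈ C.pc s d)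
    (h0 : ∀ z, r * z = 0 → z = 0) {α α' : I → ℤ} {β β' : J → ℤ}
    (h : ∀ i j, β j - α i + d = β' j - α' i) : Function.Injective (qS C hr h) := by
  rw [injective_iff_map_eq_zero]
  intro x hx
  refine q_ext C ?_
  rw [map_zero]
  have h2 : qv C α' β' (qS C hr h x) = 0 := by
    rw [hx, map_zero]
  rw [qv_qS] at h2
  funext s
  ext i j
  exact h0 _ (congrFun (congrFun (congrFun h2 s) i) j)

/-- the multiplication by the different is injective -/
theorem qq_injective (C : ERing k q R) (n : ℤ) : Function.Injective (qq C n).f :=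
  qS_injective C (fun s => C.dl_mem_pc s le_rfl) (regY_dl C).inj (q_eqd n q)

/-- `Q (n+q)` is perfect: `PF_push` with `W (n+q)`, `G` and `π` -/
theorem PF_Q (W : DblRing k C D) (n : ℤ)
    (hc : PF (AA C) (BMod.coker (qq C n))) : PF (AA C) (Qb C (n + q)) :=
  PF_push (gH W n) (piH W (n + q)) (qq C n) (fun m => piH_gH W n m) (qq_injective C n)
    (PF_W W (n + q)) hc

/-- **smoothness** (super version), from the cokernel of the different -/
theorem PF_diag_of (W : DblRing k C D)
    (hc : PF (AA C) (BMod.coker (qq C (-q)))) : PF (AA C) (BMod.diag (AA C)) := by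
  have h := PF_Q W (-q) hc
  rw [neg_add_cancel] at h
  exact PF.qi (q0H C) (QI_of_bijective _ (q0H_bijective C)) h

end EE
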