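import Pool.Agent.H2.EE.Ram
import Pool.Agent.H2.EE.SmQ
import Pool.Agent.H2.EE.DblEx
import Pool.Agent.H15.EE.XR
import Pool.Agent.H36.EK.AX

/-!
# Smooth : the diagonal bimodule is perfect

The cokernel of the different `dl : Q n → Q (n+q)` is quasi-isomorphic to the matrices over `U / dl`. `p ≠ 2` : `U / dl`
is separable over `k`. `p = 2` : `T = U / (Q, w - 1)` is separable over `k`, a direct factor of
`U / s`, `s = (w - 1) + Q u`, and `0 → T → U / dl → T → 0` is exact.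
-/

set_option autoImplicit false

open NC
open scoped TensorProduct

namespace EE

open H36.NX

variable {k : Type} [Field k] {q : ℕ} {R : Type} [CommRing R] [Algebra k R]

section elements

variable (C : ERing k q R)

/-- `u` in `U` -/
def uU : C.U := C.uX C.u_mem_X

/-- `w` in `U` -/
def wU : C.U := C.uX C.w_mem_X

/-- `Q` in `U` -/
noncomputable def QU : C.U := uU C ^ q - uU C

theorem coe_uU : (uU C : R) = C.u := rfl
theorem coe_wU : (wU C : R) = C.w := rfl
theorem coe_QU : (QU C : R) = C.Q := rfl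

theorem rel_U : wU C ^ 2 = QU C * wU C + 1 := by
  refine Subtype.ext ?_
  push_cast
  rw [coe_wU, coe_QU, C.rel']

/-- `U` is generated by `u` and `w` -/
theorem U_gen (S : Subalgebra k C.U) (hu : uU C ∈ S) (hw : wU C ∈ S) (r : C.U) : r ∈ S := by
  have h : C.X ≤ (Subalgebra.toSubmodule S).map C.U.val.toLinearMap := by
    refine Submodule.span_le.2 ?_
    rintro _ ⟨⟨m, a⟩, rfl⟩
    refine ⟨uU C ^ m * wU C ^ (a : ℕ), S.mul_mem (S.pow_mem hu m) (S.pow_mem hw _), ?_⟩
    change ((uU C ^ m * wU C ^ (a : ℕ) : C.U) : R) = C.bas ((m : ℤ), a)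
    rw [C.bas_eq, zpow_natCast, Units.val_pow_eq_pow_val]
    push_cast
    rw [coe_uU, coe_wU]
  obtain ⟨y, hy, e⟩ := h r.2
  have : r = y := Subtype.ext e.symm
  rw [this]
  exact hy

/-- the ring `U` in the format of `H82.EE.XR` -/
noncomputable def xr : H82.EE.XR k q C.U where
  u := uU C
  w := wU C
  rel := rel_U C
  gen x := U_gen C (Algebra.adjoin k ({uU C, wU C} : Set C.U))
    (Algebra.subset_adjoin (Set.mem_insert _ _))
    (Algebra.subset_adjoin (Set.mem_insert_of_mem _ (Set.mem_singleton _))) x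
  inj z hz := by
    refine Subtype.ext ((regY_dl C).inj _ ?_)
    have h := congrArg Subtype.val hz
    push_cast at h
    rw [coe_wU, coe_uU] at h
    exact h

theorem xr_de (h : C.dl ∈ C.X) : C.uX h = (xr C).de := by
  refine Subtype.ext ?_
  change C.dl = ((2 * wU C - (uU C ^ q - uU C) : C.U) : R)
  push_cast
  rw [coe_wU, coe_uU]
  rfl

/-- the section `s = (w - 1) + Q u` of `O(q+1)` -/
noncomputable def s2 : R := (C.w - 1) + C.Q * (C.u : R)

theorem u_mem_Y (C : ERing k q R) : (C.u : R) ∈ C.Y 1 := by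
  have h := unat_mem_Y C (i := 1) (n := 1) (by norm_num)
  rwa [pow_one] at h

theorem regY_s2 : RegY C (s2 C) (q + 1) where
  memX := C.X.add_mem (C.X.sub_mem C.w_mem_X C.one_mem_X) (C.mul_mem_X C.Q_mem_X C.u_mem_X)
  memY := (C.Y _).add_mem ((C.Y _).sub_mem (C.w_mem_Y (by omega)) (C.one_mem_Y (by omega)))
    (C.mul_mem_Y (C.Q_mem_Y le_rfl) (u_mem_Y C))
  chartY := by
    have hq : (2 : ℤ) ≤ q := by exact_mod_cast C.hq
    refine ⟨q + 1, C.Q - C.w - 1 + C.Q * (C.u : R), ?_, 1, one_ne_zero,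
      - (2 : k) • ((C.u : R) ^ (q + 3)) + (C.u : R) ^ 4 + ((C.u : R) ^ (2 * q + 1)
        - (2 : k) • ((C.u : R) ^ (q + 2)) + (C.u : R) ^ 3) - (2 : k) • ((C.u : R) ^ (q + 1))
        + (2 : k) • ((C.u : R) ^ 2) - (C.u : R) ^ q + (C.u : R) ^ 1, ?_, ?_⟩
    · refine (C.Y _).add_mem ((C.Y _).sub_mem ((C.Y _).sub_mem (C.Q_mem_Y (by omega))
        (C.w_mem_Y (by omega))) (C.one_mem_Y (by omega))) (C.mul_mem_Y (C.Q_mem_Y le_rfl) (u_mem_Y C))
    · have hY : ∀ i : ℕ, (i : ℤ) ≤ 2 * q + 1 →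
          (C.u : R) ^ i ∈ C.Y ((q : ℤ) + 1 + (q + 1) - 1) := fun i hi =>
        unat_mem_Y C (by omega)
      refine (C.Y _).add_mem ((C.Y _).sub_mem ((C.Y _).add_mem ((C.Y _).sub_mem ((C.Y _).add_mem
        ((C.Y _).add_mem ((C.Y _).smul_mem _ (hY _ ?_)) (hY _ ?_)) ((C.Y _).add_mem
          ((C.Y _).sub_mem (hY _ ?_) ((C.Y _).smul_mem _ (hY _ ?_))) (hY _ ?_)))
          ((C.Y _).smul_mem _ (hY _ ?_))) ((C.Y _).smul_mem _ (hY _ ?_))) (hY _ ?_)) (hY _ ?_) <;>
        push_cast <;> omega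
    · have e : ((q : ℤ) + 1 + (q + 1)) = ((2 * q + 2 : ℕ) : ℤ) := by push_cast; ring
      have h := C.rel'
      rw [e, upow_nat, map_one, one_mul]
      simp only [Algebra.smul_def, map_neg, map_ofNat]
      unfold s2
      have h2 : (C.w - 1 + C.Q * (C.u : R)) * (C.Q - C.w - 1 + C.Q * (C.u : R))
          = C.Q ^ 2 * (C.u : R) ^ 2 + C.Q ^ 2 * C.u - 2 * C.Q * C.u - C.Q := by
        linear_combination -h
      rw [h2, C.Q_eq]
      ring

theorem xr_s2 (h : s2 C ∈ C.X) : C.uX h = (xr C).s2 := by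
  refine Subtype.ext ?_
  change s2 C = (((wU C - 1) + (uU C ^ q - uU C) * uU C : C.U) : R)
  push_cast
  rw [coe_wU, coe_uU]
  rfl

end elements

/-! ### comparison with `H82.EE.MT` -/

section compare

variable (C : ERing k q R) (I : Ideal C.U)

/-- `A → M_2(U / I)` -/
noncomputable def mtI : H82.EE.MT (AA C) (C.U ⧸ I) where
  f :=
    { toFun := fun a => (ax C a).map (Ideal.Quotient.mkₐ k I)
      map_add' := fun a b => by
        rw [map_add]
        exact Matrix.map_add _ (map_add (Ideal.Quotient.mkₐ k I)) _ _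
      map_smul' := fun c a => by
        rw [map_smul]
        ext i j
        exact map_smul (Ideal.Quotient.mkₐ k I) c (ax C a i j) }
  mul a b := by
    change (ax C (a * b)).map (Ideal.Quotient.mkₐ k I) = _
    rw [ax_mul]
    exact Matrix.map_mul
  one := by
    change (ax C 1).map (Ideal.Quotient.mkₐ k I) = 1
    rw [ax_one]
    exact Matrix.map_one _ (map_zero _) (map_one _)
  P a := by
    change (ax C ((AA C).P a)).map (Ideal.Quotient.mkₐ k I) = (ax C a).map _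
    rw [ax_P]
  D a := by
    change (ax C ((AA C).D a)).map (Ideal.Quotient.mkₐ k I) = 0
    rw [ax_D]
    exact Matrix.map_zero _ (map_zero _)

theorem mtI_f (a : (AA C).V) (i j : Fin 2) :
    (mtI C I).f a i j = Ideal.Quotient.mk I (ax C a i j) := rfl

/-- the identity -/
def idX (k S : Type) [Field k] [AddCommGroup S] [Module k S] :
    SD.Hom (xSD k S) (H82.EE.xSD k S) where
  f := LinearMap.id
  D _ := rfl
  P _ := rfl

theorem mul_aux (J : Type) (a : (AA C).V) (x : Matrix (Fin 2) J (C.U ⧸ I)) :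
    mL k C.U (C.U ⧸ I) (Fin 2) (Fin 2) J (ax C a) x = (mtI C I).f a * x := by
  ext i l
  rw [mL_apply, Matrix.mul_apply]
  rfl

theorem mul_aux' (J : Type) (a : (AA C).V) (x : Matrix J (Fin 2) (C.U ⧸ I)) :
    mR k C.U (C.U ⧸ I) J (Fin 2) (Fin 2) x (ax C a) = x * (mtI C I).f a := by
  ext i l
  rw [mR_apply, Matrix.mul_apply]
  refine Finset.sum_congr rfl fun j _ => ?_
  rw [mul_comm]
  rfl

theorem idX_left (J : Type) : (xVL C (C.U ⧸ I) J).IsHom ((mtI C I).xL J)
    (idX k (Matrix (Fin 2) J (C.U ⧸ I))) := fun a x => mul_aux C I J a x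

theorem idX_right (J : Type) : (xVR C (C.U ⧸ I) J).IsHom ((mtI C I).xR J)
    (idX k (Matrix J (Fin 2) (C.U ⧸ I))) := fun x a => mul_aux' C I J a x

theorem PF_cr (h : PF (AA C) (tXX C (C.U ⧸ I))) : PF (AA C) (mtI C I).cr := by
  let f : BMod.Hom (tXX C (C.U ⧸ I)) (mtI C I).cr :=
    { toHom := (idX k (Matrix (Fin 2) Unit (C.U ⧸ I))).tens (idX k (Matrix Unit (Fin 2) (C.U ⧸ I)))
      isHom := isHom_tens _ _ (idX_left C I Unit) (idX_right C I Unit) }
  refine PF.qi f (QI_of_bijective _ ?_) h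
  have e : f.f = LinearMap.id := TensorProduct.map_id
  rw [e]
  exact Function.bijective_id

theorem PF_xVb (h : PF (AA C) (mtI C I).bi) : PF (AA C) (xVb C (C.U ⧸ I)) := by
  let f : BMod.Hom (xVb C (C.U ⧸ I)) (mtI C I).bi :=
    { toHom := idX k (Matrix (Fin 2) (Fin 2) (C.U ⧸ I))
      isHom := ⟨idX_left C I (Fin 2), idX_right C I (Fin 2)⟩ }
  exact PF.qi' f (QI_of_bijective _ Function.bijective_id) h

variable {I}

theorem mtI_lin {I' : Ideal C.U} (φ : (C.U ⧸ I) →ₗ[C.U] (C.U ⧸ I')) (a : (AA C).V) (i j : Fin 2)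
    (x : C.U ⧸ I) : (φ.restrictScalars k) ((mtI C I).f a i j * x)
      = (mtI C I').f a i j * (φ.restrictScalars k) x :=
  map_smul φ (ax C a i j) x

end compare

/-- **the cokernel of the different is perfect** -/
theorem PF_coker_qq {p : ℕ} (C : ERing k q R) (hQ : EK.SurR.QP p q k) (m : ℤ) :
    PF (AA C) (BMod.coker (qq C m)) := by
  have hp : Fact p.Prime := ⟨hQ.prime⟩
  have hc := hQ.char
  obtain ⟨n, hn0, hn⟩ := hQ.pow
  refine PF_coker_qs C (regY_dl C) m ?_
  have e := xr_de C (regY_dl C).memX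
  rw [e]
  have hXX := tXX_PF C (regY_dl C)
  rw [e] at hXX
  by_cases h2 : p = 2
  · subst h2
    have hYY := tXX_PF C (regY_s2 C)
    rw [xr_s2 C (regY_s2 C).memX] at hYY
    obtain ⟨iw, pw, hpw⟩ := (xr C).split_two (k := k)
    have hcr := H82.EE.MT.cr_ret (mtI C _) (mtI C _) (pw.restrictScalars k) (iw.restrictScalars k)
      (mtI_lin C pw) (mtI_lin C iw) hpw (PF_cr C _ hYY)
    obtain ⟨E⟩ := (xr C).sep_two n hn hn0
    have hbi := H82.EE.MT.PF_bi _ E hcr
    obtain ⟨i, r, hi, hir, hr⟩ := (xr C).ext_two (k := k)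
    exact PF_xVb C _ (PF.ses2 _ _ (H82.EE.MT.bi_ses (mtI C _) (mtI C _) (mtI C _)
      (i.restrictScalars k) (r.restrictScalars k) (mtI_lin C i) (mtI_lin C r) hi hir hr) hbi hbi)
  · obtain ⟨E⟩ := (xr C).sep_odd p h2 n hn hn0
    exact PF_xVb C _ (H82.EE.MT.PF_bi _ E (PF_cr C _ hXX))

/-- **smoothness** -/
theorem PF_diag {p : ℕ} (C : ERing k q R) (hQ : EK.SurR.QP p q k) :
    PF (AA C) (BMod.diag (AA C)) := by
  obtain ⟨D, _, _, ⟨W⟩⟩ := exists_dblRing k C
  exact PF_diag_of W (PF_coker_qq C hQ (-q))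

end EE
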