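import Pool.Agent.H2.EE.Iso
import Pool.Agent.H2.EE.Smooth
import Pool.Agent.H36.EK.Proper
import Pool.Agent.H9.NC.Coh

/-!
# Out : interface of block E (MP_eadf0f_ag, every field of characteristic p)

The diagonal bimodule of the dg algebra `AE` of the curve is perfect, and `AE` has finite cohomology.
-/

set_option autoImplicit false

open NC

namespace EE

variable {p q : ℕ} {k : Type} [Field k] {R : Type} [CommRing R] [Algebra k R]

/-- **smoothness** of the dg algebra of the curve -/
theorem PF_AE (C : EK.CurR q k R) (hQ : EK.SurR.QP p q k) :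
    PF C.AE.toDGA (BMod.diag C.AE.toDGA) :=
  PF_AE_of C (PF_diag (toE C) hQ)

/-- **properness** of the dg algebra of the curve -/
theorem finH_AE (C : EK.CurR q k R) : C.AE.toSD.FinH := C.finH_AE

theorem finite_AE (C : EK.CurR q k R) : FiniteDimensional k C.AE.toSD.Coh :=
  SD.coh_finite_iff.2 (finH_AE C)

end EE
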