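import Pool.Agent.H36.NX.Push
import Pool.Agent.H2.EE.HomsF
import Pool.Agent.H15.NC.TensQ

/-!
# SmK : the bimodules `K m n` are perfect

`V m = coker (x : L m → L (m+1))`; the multiplication by `u` is an isomorphism `V m → V (m+1)` by the Koszul
sequence. So `K m n`, `K (m+1) n` perfect imply `V m ⊗ P n = V (m+1) ⊗ P n` perfect and `K (m+2) n` perfect.
-/

set_option autoImplicit false

open NC
open scoped TensorProduct

namespace EE

open H36.NX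
variable {k : Type} [Field k] {q : ℕ} {R : Type} [CommRing R] [Algebra k R] {I J : Type}

/-! ### the isomorphism of the cokernels -/

section koszul

variable (C : ERing k q R) {α₀ α₁ α₂ : I → ℤ} {β₀ β₁ β₂ : J → ℤ}

theorem qIn_injective {α α' : I → ℤ} {β β' : J → ℤ} (h : ∀ i j, β j - α i ≤ β' j - α' i) :
    Function.Injective (qInH C h).f := by
  intro x y hxy
  refine q_ext C ?_
  have e : qv C α' β' (qIn C h x) = qv C α' β' (qIn C h y) := congrArg _ hxy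
  rwa [qv_qIn, qv_qIn] at e

/-- multiplication by `u` followed by the projection -/
noncomputable def uPi (h₁ : ∀ i j, β₁ j - α₁ i ≤ β₂ j - α₂ i)
    (h₁' : ∀ i j, β₁ j - α₁ i + 1 = β₂ j - α₂ i) :
    SD.Hom (qSD C α₁ β₁) (gq (qInH C h₁)) where
  f := (gqπ (qInH C h₁)).f.comp (qUH C h₁').f
  D v := by rw [LinearMap.comp_apply, LinearMap.comp_apply, (qUH C h₁').D, (gqπ (qInH C h₁)).D]
  P v := by rw [LinearMap.comp_apply, LinearMap.comp_apply, (qUH C h₁').P, (gqπ (qInH C h₁)).P]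

theorem uPi_zero (h₀ : ∀ i j, β₀ j - α₀ i ≤ β₁ j - α₁ i)
    (h₀' : ∀ i j, β₀ j - α₀ i + 1 = β₁ j - α₁ i) (h₁ : ∀ i j, β₁ j - α₁ i ≤ β₂ j - α₂ i)
    (h₁' : ∀ i j, β₁ j - α₁ i + 1 = β₂ j - α₂ i) (x : (qSD C α₀ β₀).V) :
    (uPi C h₁ h₁').f ((qInH C h₀).f x) = 0 := by
  refine (gqπ_eq_zero _ _).2 ⟨(qUH C h₀').f x, q_ext C ?_⟩
  change qv C α₂ β₂ (qIn C h₁ (qU C h₀' x)) = qv C α₂ β₂ (qU C h₁' (qIn C h₀ x))
  rw [qv_qIn, qv_qU, qv_qU, qv_qIn]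

/-- the map of the cokernels -/
noncomputable def uQ (h₀ : ∀ i j, β₀ j - α₀ i ≤ β₁ j - α₁ i)
    (h₀' : ∀ i j, β₀ j - α₀ i + 1 = β₁ j - α₁ i) (h₁ : ∀ i j, β₁ j - α₁ i ≤ β₂ j - α₂ i)
    (h₁' : ∀ i j, β₁ j - α₁ i + 1 = β₂ j - α₂ i) :
    SD.Hom (gq (qInH C h₀)) (gq (qInH C h₁)) :=
  gqDesc (qInH C h₀) (uPi C h₁ h₁') (uPi_zero C h₀ h₀' h₁ h₁')

theorem uQ_bijective (h₀ : ∀ i j, β₀ j - α₀ i ≤ β₁ j - α₁ i)
    (h₀' : ∀ i j, β₀ j - α₀ i + 1 = β₁ j - α₁ i) (h₁ : ∀ i j, β₁ j - α₁ i ≤ β₂ j - α₂ i)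
    (h₁' : ∀ i j, β₁ j - α₁ i + 1 = β₂ j - α₂ i) :
    Function.Bijective (uQ C h₀ h₀' h₁ h₁').f := by
  constructor
  · rw [injective_iff_map_eq_zero]
    intro v hv
    obtain ⟨c', rfl⟩ := gqπ_surjective (qInH C h₀) v
    have hv' : (gqπ (qInH C h₁)).f ((qUH C h₁').f c') = 0 := hv
    obtain ⟨c, hc⟩ := (gqπ_eq_zero _ _).1 hv'
    have e : qv C α₁ β₁ c = smulR k I J (C.u : R) (qv C α₁ β₁ c') := by
      have e1 : qv C α₂ β₂ (qIn C h₁ c) = qv C α₂ β₂ (qU C h₁' c') := congrArg _ hc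
      rwa [qv_qIn, qv_qU] at e1
    have h2 := (koszul_mid C h₀' (c := - qv C α₁ β₁ c) (c' := qv C α₁ β₁ c')
      ((QQ C α₁ β₁).neg_mem (qv_mem C c)) (qv_mem C c') (by rw [e, neg_add_cancel])).1
    refine (gqπ_eq_zero _ _).2 ⟨qmk C α₀ β₀ _ h2, q_ext C ?_⟩
    change qv C α₁ β₁ (qIn C h₀ _) = _
    rw [qv_qIn, qv_qmk]
  · intro v
    obtain ⟨e, rfl⟩ := gqπ_surjective (qInH C h₁) v
    obtain ⟨c, hc, c', hc', he⟩ := koszul_right C h₁' (qv_mem C e)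
    refine ⟨(gqπ (qInH C h₀)).f (qmk C α₁ β₁ c' hc'), ?_⟩
    change (gqπ (qInH C h₁)).f ((qUH C h₁').f (qmk C α₁ β₁ c' hc')) = (gqπ (qInH C h₁)).f e
    rw [← sub_eq_zero, ← map_sub, gqπ_eq_zero]
    refine ⟨- qmk C α₁ β₁ c hc, q_ext C ?_⟩
    change qv C α₂ β₂ (qIn C h₁ (- qmk C α₁ β₁ c hc))
      = qv C α₂ β₂ (qU C h₁' (qmk C α₁ β₁ c' hc') - e)
    rw [qv_qIn, map_neg, map_sub, qv_qmk, qv_qU, qv_qmk, he]
    abel

end koszul

/-! ### left factors -/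

section left

variable (C : ERing k q R) {Y : SD k} (b : RA (AA C) Y) (hb : ∀ y, b.act y 1 = y)

/-- `L m ⊗ Y` -/
noncomputable abbrev tL (m : ℤ) : BMod (AA C) (AA C) :=
  tB (qLA C (fun _ : Unit => m)) (qLA_one C _) b hb

/-- `V m ⊗ Y` -/
noncomputable abbrev tVL (m : ℤ) : BMod (AA C) (AA C) :=
  tB (gqL (qInH_left C (lc_le' m))) (gqL_one _ (qLA_one C _)) b hb

theorem tL_ses (m : ℤ) : SD.SES
    (tBf (hb := hb) (hb' := hb) (ha := qLA_one C _) (ha' := qLA_one C _) (qInH C (lc_le' m))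
      (SD.Hom.id Y) (qInH_left C (lc_le' m)) (fun _ _ => rfl) :
        BMod.Hom (tL C b hb m) (tL C b hb (m + 1))).toHom
    (tBf (gqπ (qInH C (lc_le' m))) (SD.Hom.id Y) (gqπ_left _) (fun _ _ => rfl) :
        BMod.Hom (tL C b hb (m + 1)) (tVL C b hb m)).toHom :=
  ses_tensR (gq_ses _ (qIn_injective C (lc_le' m))) Y

/-- `V m ⊗ Y → V (m+1) ⊗ Y` -/
noncomputable def tVLu (m : ℤ) : BMod.Hom (tVL C b hb m) (tVL C b hb (m + 1)) :=
  tBf (uQ C (lc_le' m) (lc_eq' m) (lc_le' (m + 1)) (lc_eq' (m + 1))) (SD.Hom.id Y)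
    (gqDesc_left (qInH_left C (lc_le' m)) (fun r v => by
      change (gqπ (qInH C (lc_le' (m + 1)))).f ((qUH C (lc_eq' (m + 1))).f
          ((qLA C (fun _ : Unit => m + 1)).act r v))
        = (gqπ (qInH C (lc_le' (m + 1)))).f ((qLA C (fun _ : Unit => m + 1 + 1)).act r
          ((qUH C (lc_eq' (m + 1))).f v))
      rw [qUH_left C (lc_eq' (m + 1)) r v]) _) (fun _ _ => rfl)

theorem tVLu_qi (m : ℤ) : (tVLu C b hb m).toHom.QI :=
  (QI_of_bijective _ (uQ_bijective C (lc_le' m) (lc_eq' m) (lc_le' (m + 1))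
    (lc_eq' (m + 1)))).tensL Y

theorem tL_up (m : ℤ) (h0 : PF (AA C) (tL C b hb m)) (h1 : PF (AA C) (tL C b hb (m + 1))) :
    PF (AA C) (tL C b hb (m + 1 + 1)) := by
  have hV := PF.ses1 _ _ (tL_ses C b hb m) h0 h1
  have hV' := PF.qi _ (tVLu_qi C b hb m) hV
  exact PF.ses2 _ _ (tL_ses C b hb (m + 1)) h1 hV'

theorem tL_dn (m : ℤ) (h1 : PF (AA C) (tL C b hb (m + 1)))
    (h2 : PF (AA C) (tL C b hb (m + 1 + 1))) : PF (AA C) (tL C b hb m) := by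
  have hV' := PF.ses1 _ _ (tL_ses C b hb (m + 1)) h1 h2
  have hV := PF.qi' _ (tVLu_qi C b hb m) hV'
  exact PF.ses3 _ _ (tL_ses C b hb m) h1 hV

end left

/-! ### right factors -/

section right

variable (C : ERing k q R) {X : SD k} (a : LA (AA C) X) (ha : ∀ x, a.act 1 x = x)

/-- `X ⊗ P n` -/
noncomputable abbrev tR (n : ℤ) : BMod (AA C) (AA C) :=
  tB a ha (qRA C (fun _ : Unit => (0 : ℤ)) n) (qRA_one C _ n)

/-- `X ⊗ V n` -/
noncomputable abbrev tVR (n : ℤ) : BMod (AA C) (AA C) :=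
  tB a ha (gqR (qInH_right C (pr_le' n))) (gqR_one _ (qRA_one C _ _))

theorem tR_ses (n : ℤ) : SD.SES
    (tBf (ha := ha) (ha' := ha) (hb := qRA_one C _ n) (hb' := qRA_one C _ (n + 1)) (SD.Hom.id X)
      (qInH C (pr_le' n)) (fun _ _ => rfl) (qInH_right C (pr_le' n)) :
        BMod.Hom (tR C a ha n) (tR C a ha (n + 1))).toHom
    (tBf (SD.Hom.id X) (gqπ (qInH C (pr_le' n))) (fun _ _ => rfl) (gqπ_right _) :
        BMod.Hom (tR C a ha (n + 1)) (tVR C a ha n)).toHom :=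
  ses_tensL (gq_ses _ (qIn_injective C (pr_le' n))) X

/-- `X ⊗ V n → X ⊗ V (n+1)` -/
noncomputable def tVRu (n : ℤ) : BMod.Hom (tVR C a ha n) (tVR C a ha (n + 1)) :=
  tBf (SD.Hom.id X) (uQ C (pr_le' n) (pr_eq' n) (pr_le' (n + 1)) (pr_eq' (n + 1)))
    (fun _ _ => rfl)
    (gqDesc_right (qInH_right C (pr_le' n)) (fun v r => by
      change (gqπ (qInH C (pr_le' (n + 1)))).f ((qUH C (pr_eq' (n + 1))).f
          ((qRA C (fun _ : Unit => (0 : ℤ)) (n + 1)).act v r))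
        = (gqπ (qInH C (pr_le' (n + 1)))).f ((qRA C (fun _ : Unit => (0 : ℤ)) (n + 1 + 1)).act
          ((qUH C (pr_eq' (n + 1))).f v) r)
      rw [qUH_right C (pr_eq' (n + 1)) v r]) _)

theorem tVRu_qi (n : ℤ) : (tVRu C a ha n).toHom.QI :=
  (QI_of_bijective _ (uQ_bijective C (pr_le' n) (pr_eq' n) (pr_le' (n + 1))
    (pr_eq' (n + 1)))).tensR X

theorem tR_up (n : ℤ) (h0 : PF (AA C) (tR C a ha n)) (h1 : PF (AA C) (tR C a ha (n + 1))) :
    PF (AA C) (tR C a ha (n + 1 + 1)) := by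
  have hV := PF.ses1 _ _ (tR_ses C a ha n) h0 h1
  have hV' := PF.qi _ (tVRu_qi C a ha n) hV
  exact PF.ses2 _ _ (tR_ses C a ha (n + 1)) h1 hV'

theorem tR_dn (n : ℤ) (h1 : PF (AA C) (tR C a ha (n + 1)))
    (h2 : PF (AA C) (tR C a ha (n + 1 + 1))) : PF (AA C) (tR C a ha n) := by
  have hV' := PF.ses1 _ _ (tR_ses C a ha (n + 1)) h1 h2
  have hV := PF.qi' _ (tVRu_qi C a ha n) hV'
  exact PF.ses3 _ _ (tR_ses C a ha n) h1 hV

end right

/-- two consecutive ones, hence all -/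
theorem int_two (P : ℤ → Prop) (m : ℤ) (h0 : P m) (h1 : P (m + 1))
    (up : ∀ i, P i → P (i + 1) → P (i + 1 + 1)) (dn : ∀ i, P (i + 1) → P (i + 1 + 1) → P i)
    (n : ℤ) : P n := by
  have key : ∀ i : ℤ, P (m + i) ∧ P (m + i + 1) := by
    intro i
    induction i using Int.induction_on with
    | zero => rw [add_zero]; exact ⟨h0, h1⟩
    | succ i ih =>
      rw [show m + ((i : ℤ) + 1) = m + i + 1 by ring]
      exact ⟨ih.2, up _ ih.1 ih.2⟩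
    | pred i ih =>
      have e1 : m + -(i : ℤ) = m + (-(i : ℤ) - 1) + 1 := by ring
      rw [e1] at ih
      exact ⟨dn _ ih.1 ih.2, ih.1⟩
  have h := (key (n - m)).1
  rwa [add_sub_cancel] at h

/-- `K m (-n)`, `m, n ∈ {0, 1}` -/
theorem PF_K_base (C : ERing k q R) (m n : Fin 2) : PF (AA C) (Kb C (wt m) (-wt n)) :=
  PF.ret (kPut C m n) (kGet C m n) (kGet_kPut C m n) PF.free

/-- all `K m n` -/
theorem PF_K (C : ERing k q R) (m n : ℤ) : PF (AA C) (Kb C m n) := by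
  have hn : ∀ (m : Fin 2) (n : ℤ), PF (AA C) (Kb C (wt m) n) := by
    intro m
    refine int_two (fun n => PF (AA C) (Kb C (wt m) n)) (-1) ?_ ?_
      (fun i h h' => tR_up C (qLA C (fun _ : Unit => wt m)) (qLA_one C _) i h h')
      (fun i h h' => tR_dn C (qLA C (fun _ : Unit => wt m)) (qLA_one C _) i h h')
    · have h := PF_K_base C m 1
      rwa [show -wt (1 : Fin 2) = -1 by simp [wt]] at h
    · have h := PF_K_base C m 0
      rwa [show -wt (0 : Fin 2) = -1 + 1 by simp [wt]] at h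
  refine int_two (fun m => PF (AA C) (Kb C m n)) 0 ?_ ?_
    (fun i h h' => tL_up C (qRA C (fun _ : Unit => (0 : ℤ)) n) (qRA_one C _ n) i h h')
    (fun i h h' => tL_dn C (qRA C (fun _ : Unit => (0 : ℤ)) n) (qRA_one C _ n) i h h') m
  · have h := hn 0 n
    rwa [show wt (0 : Fin 2) = 0 by simp [wt]] at h
  · have h := hn 1 n
    rwa [show wt (1 : Fin 2) = 0 + 1 by simp [wt]] at h

end EE
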