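import Pool.Agent.H2.EE.XV
import Pool.Agent.H2.EE.RegY
import Pool.Agent.H2.EE.SmK

/-!
# Ram : the quotient of the complexes of sections by a section `s` which does not vanish at `x = 0`

The cokernel of the multiplication by `s` is quasi-isomorphic to the module of matrices over `U / s`, `U` the ring of
the chart `x ≠ 0`.
-/

set_option autoImplicit false

open NC
open scoped TensorProduct

namespace EE

open H36.NX

variable {k : Type} [Field k] {q : ℕ} {R : Type} [CommRing R] [Algebra k R] {I J : Type}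

/-- the projection of `U` on `U / s` -/
noncomputable def qtU (C : ERing k q R) (s : C.U) : C.U →ₗ[C.U] (C.U ⧸ Ideal.span {s}) :=
  (Ideal.span {s}).mkQ

theorem qtU_surjective (C : ERing k q R) (s : C.U) : Function.Surjective (qtU C s) :=
  Submodule.mkQ_surjective _

theorem qtU_eq_zero (C : ERing k q R) (s r : C.U) : qtU C s r = 0 ↔ ∃ z, r = s * z := by
  change Ideal.Quotient.mk (Ideal.span {s}) r = 0 ↔ _
  rw [Ideal.Quotient.eq_zero_iff_mem, Ideal.mem_span_singleton]
  exact Iff.rfl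

section

variable (C : ERing k q R) {s : R} {d : ℤ} (hs : RegY C s d) {α α' : I → ℤ} {β β' : J → ℤ}
  (h : ∀ i j, β j - α i + d = β' j - α' i)

theorem ram_zero (x : (qSD C α β).V) :
    (evX C α' β' (qtU C (C.uX hs.memX))).f ((qSH C hs.mem_pc h).f x) = 0 := by
  refine Matrix.ext fun i j => ?_
  change qtU C (C.uX hs.memX) (C.uX (qv_mem C ((qSH C hs.mem_pc h).f x) Pc.X i j)) = 0
  rw [qtU_eq_zero]
  refine ⟨C.uX (qv_mem C x Pc.X i j), Subtype.ext ?_⟩
  change qv C α' β' (qS C hs.mem_pc h x) Pc.X i j = s * qv C α β x Pc.X i j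
  rw [qv_qS, smulR_apply]

theorem ram_surjective (t : C.U) : Function.Surjective (evX C α β (qtU C t)).f := by
  intro z
  choose r hr using fun (i : I) (j : J) => qtU_surjective C t (z i j)
  have hm : (fun p : Pc => match p with
      | Pc.X => fun i j => (r i j : R)
      | Pc.Y => 0
      | Pc.R => 0 : Pc → Matrix I J R) ∈ QQ C α β := by
    intro p i j
    cases p with
    | X => exact (r i j).2
    | Y => exact (C.Y _).zero_mem
    | R => exact Submodule.mem_top
  refine ⟨qmk C α β _ hm, ?_⟩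
  refine Matrix.ext fun i j => ?_
  rw [evX_apply]
  exact hr i j

theorem ram_acyclic (y : (qSD C α' β').V)
    (hy : (evX C α' β' (qtU C (C.uX hs.memX))).f y = 0)
    (hD : ∃ x, (qSH C hs.mem_pc h).f x = (qSD C α' β').D y) :
    ∃ (y' : (qSD C α' β').V) (x' : (qSD C α β).V),
      (evX C α' β' (qtU C (C.uX hs.memX))).f y' = 0 ∧
        y = (qSD C α' β').D y' + (qSH C hs.mem_pc h).f x' := by
  obtain ⟨x, hx⟩ := hD
  have h1 : ∀ i j, ∃ a ∈ C.X, qv C α' β' y Pc.X i j = s * a := by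
    intro i j
    have h2 : qtU C (C.uX hs.memX) (C.uX (qv_mem C y Pc.X i j)) = 0 :=
      congrFun (congrFun hy i) j
    obtain ⟨a, ha⟩ := (qtU_eq_zero C _ _).1 h2
    exact ⟨a, a.2, congrArg Subtype.val ha⟩
  choose a ha ha' using h1
  have h2 : ∀ i j, qv C α' β' y Pc.Y i j = s * (qv C α β x Pc.R i j + a i j) := by
    intro i j
    have h3 : qv C α' β' (qS C hs.mem_pc h x) = qv C α' β' ((qSD C α' β').D y) :=
      congrArg _ hx
    rw [qv_qS, qv_D] at h3
    have h4 : s * qv C α β x Pc.R i j = qv C α' β' y Pc.Y i j - qv C α' β' y Pc.X i j :=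
      congrFun (congrFun (congrFun h3 Pc.R) i) j
    rw [mul_add, h4, ← ha']
    ring
  have h3 : ∀ i j, qv C α β x Pc.R i j + a i j ∈ C.Y (β j - α i) := by
    intro i j
    refine hs.infY (h i j) ?_
    rw [← h2]
    exact qv_mem C y Pc.Y i j
  choose b hb c hc using fun (i : I) (j : J) => hs.supY (β' j - α' i) (qv C α' β' y Pc.R i j)
  have m1 : (fun p : Pc => match p with
      | Pc.X => 0
      | Pc.Y => fun i j => b i j
      | Pc.R => 0 : Pc → Matrix I J R) ∈ QQ C α' β' := by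
    intro p i j
    cases p with
    | X => exact C.X.zero_mem
    | Y => exact hb i j
    | R => exact Submodule.mem_top
  have m2 : (fun p : Pc => match p with
      | Pc.X => fun i j => a i j
      | Pc.Y => fun i j => qv C α β x Pc.R i j + a i j
      | Pc.R => fun i j => c i j : Pc → Matrix I J R) ∈ QQ C α β := by
    intro p i j
    cases p with
    | X => exact ha i j
    | Y => exact h3 i j
    | R => exact Submodule.mem_top
  refine ⟨qmk C α' β' _ m1, qmk C α β _ m2, ?_, q_ext C ?_⟩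
  · refine Matrix.ext fun i j => ?_
    change qtU C (C.uX hs.memX) (C.uX _) = 0
    rw [qtU_eq_zero]
    refine ⟨0, Subtype.ext ?_⟩
    rw [mul_zero]
    rfl
  · rw [map_add, qv_D]
    have e : qv C α' β' ((qSH C hs.mem_pc h).f (qmk C α β _ m2))
        = smulR k I J s (qv C α β (qmk C α β _ m2)) := qv_qS C hs.mem_pc h _
    rw [e, qv_qmk, qv_qmk]
    funext p
    ext i j
    cases p with
    | X =>
      change qv C α' β' y Pc.X i j = 0 + s * a i j
      rw [zero_add, ha']
    | Y =>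
      change qv C α' β' y Pc.Y i j = 0 + s * (qv C α β x Pc.R i j + a i j)
      rw [zero_add, h2]
    | R =>
      change qv C α' β' y Pc.R i j = (b i j - 0) + s * c i j
      rw [sub_zero, hc]

/-- **the quotient by the multiples of `s`** -/
theorem ram_qi : (gqDesc (qSH C hs.mem_pc h) (evX C α' β' (qtU C (C.uX hs.memX)))
    (ram_zero C hs h)).QI :=
  gqDesc_qi _ _ _ (ram_surjective C _) (fun y hy hD => ram_acyclic C hs h y hy hD)

theorem ram_inj : Function.Injective (qSH C hs.mem_pc h).f := by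
  rw [injective_iff_map_eq_zero]
  intro x hx
  refine q_ext C ?_
  rw [map_zero]
  have h2 : qv C α' β' (qS C hs.mem_pc h x) = 0 := by
    have h3 : qS C hs.mem_pc h x = 0 := hx
    rw [h3, map_zero]
  rw [qv_qS] at h2
  funext p
  ext i j
  exact hs.inj _ (congrFun (congrFun (congrFun h2 p) i) j)

end

variable (C : ERing k q R) {s : R} {d : ℤ} (hs : RegY C s d)

/-- `L m ⊗ (row over U / s)` -/
noncomputable abbrev tX (m : ℤ) : BMod (AA C) (AA C) :=
  tB (qLA C (fun _ : Unit => m)) (qLA_one C _)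
    (xVR C (C.U ⧸ Ideal.span {C.uX hs.memX}) Unit) (xVR_one C)

theorem tX_PF (m : ℤ) : PF (AA C) (tX C hs m) := by
  have hr := qSH_right C hs.mem_pc (pr_eqd 0 d)
  have h1 : PF (AA C) (tB (qLA C (fun _ : Unit => m)) (qLA_one C _) (gqR hr)
      (gqR_one _ (qRA_one C _ _))) :=
    PF.ses1
      (tBf (SD.Hom.id (Lc C m)) (qSH C hs.mem_pc (pr_eqd 0 d)) (fun _ _ => rfl) hr :
        BMod.Hom (tR C (qLA C (fun _ : Unit => m)) (qLA_one C _) 0)
          (tR C (qLA C (fun _ : Unit => m)) (qLA_one C _) (0 + d)))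
      (tBf (SD.Hom.id (Lc C m)) (gqπ (qSH C hs.mem_pc (pr_eqd 0 d))) (fun _ _ => rfl)
        (gqπ_right hr))
      (ses_tensL (gq_ses _ (ram_inj C hs (pr_eqd 0 d))) (Lc C m)) (PF_K C m 0) (PF_K C m (0 + d))
  exact PF.qi
    (tBf (SD.Hom.id (Lc C m)) (gqDesc (qSH C hs.mem_pc (pr_eqd 0 d)) _
      (ram_zero C hs (pr_eqd 0 d))) (fun _ _ => rfl)
      (gqDesc_right hr (evX_right C (fun _ : Unit => (0 : ℤ)) (0 + d) _) _))
    ((ram_qi C hs (pr_eqd 0 d)).tensR (Lc C m)) h1

/-- `(column over U / s) ⊗ (row over U / s)` is perfect -/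
theorem tXX_PF : PF (AA C) (tXX C (C.U ⧸ Ideal.span {C.uX hs.memX})) := by
  have hl := qSH_left C hs.mem_pc (lc_eqd 0 d)
  have h1 : PF (AA C) (tB (gqL hl) (gqL_one _ (qLA_one C _))
      (xVR C (C.U ⧸ Ideal.span {C.uX hs.memX}) Unit) (xVR_one C)) :=
    PF.ses1
      (tBf (qSH C hs.mem_pc (lc_eqd 0 d)) (SD.Hom.id _) hl (fun _ _ => rfl) :
        BMod.Hom (tX C hs 0) (tX C hs (0 + d)))
      (tBf (gqπ (qSH C hs.mem_pc (lc_eqd 0 d))) (SD.Hom.id _) (gqπ_left hl) (fun _ _ => rfl))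
      (ses_tensR (gq_ses _ (ram_inj C hs (lc_eqd 0 d))) _) (tX_PF C hs 0) (tX_PF C hs (0 + d))
  exact PF.qi
    (tBf (gqDesc (qSH C hs.mem_pc (lc_eqd 0 d)) _ (ram_zero C hs (lc_eqd 0 d))) (SD.Hom.id _)
      (gqDesc_left hl (evX_left C (fun _ : Unit => (0 : ℤ) + d) _) _) (fun _ _ => rfl))
    ((ram_qi C hs (lc_eqd 0 d)).tensL _) h1

/-- the cokernel of the multiplication by `s` on `Q n` -/
theorem PF_coker_qs (n : ℤ) (h : PF (AA C) (xVb C (C.U ⧸ Ideal.span {C.uX hs.memX}))) :
    PF (AA C) (BMod.coker (qs C hs.mem_pc n)) := by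
  let g : BMod.Hom (Qb C (n + d)) (xVb C (C.U ⧸ Ideal.span {C.uX hs.memX})) :=
    evB C (n + d) (qtU C (C.uX hs.memX))
  exact PF.qi' (BMod.cokerDesc (qs C hs.mem_pc n) g (ram_zero C hs (q_eqd n d)))
    (ram_qi C hs (q_eqd n d)) h

end EE
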