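import Pool.Agent.H2.EE.Homs
import Pool.Agent.H2.EE.HomsS

/-!
# XV : dg modules over `A` defined by a module `V` over the ring `U` of the chart `x ≠ 0`

`xSD k (Matrix I J V)` is the module of matrices with zero differential, on which `A` acts through its component on
the chart `x ≠ 0`.
-/

set_option autoImplicit false

open NC

namespace EE

open H36.NX

variable {k : Type} [Field k] {q : ℕ} {R : Type} [CommRing R] [Algebra k R]

/-- the ring of the chart `x ≠ 0` -/
def ERing.U (C : ERing k q R) : Subalgebra k R where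
  carrier := C.X
  mul_mem' := fun ha hb => C.mul_mem_X ha hb
  one_mem' := C.one_mem_X
  add_mem' := fun ha hb => C.X.add_mem ha hb
  zero_mem' := C.X.zero_mem
  algebraMap_mem' := fun c => by
    rw [Algebra.algebraMap_eq_smul_one]
    exact C.X.smul_mem c C.one_mem_X

/-- an element of the chart `x ≠ 0` as an element of the ring -/
def ERing.uX (C : ERing k q R) {r : R} (h : r ∈ C.X) : C.U := ⟨r, h⟩

@[simp] theorem ERing.coe_uX (C : ERing k q R) {r : R} (h : r ∈ C.X) : (C.uX h : R) = r := rfl

section mat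

variable {U : Type} [CommRing U] [Algebra k U]
variable {V V' V'' : Type} [AddCommGroup V] [Module k V] [Module U V] [IsScalarTower k U V]
  [AddCommGroup V'] [Module k V'] [Module U V'] [IsScalarTower k U V']
  [AddCommGroup V''] [Module k V''] [Module U V''] [IsScalarTower k U V'']
  {I J L M : Type}

/-- the product of a matrix over `U` and of a matrix over `V` -/
noncomputable def mL (k U V : Type) [Field k] [CommRing U] [Algebra k U] [AddCommGroup V]
    [Module k V] [Module U V] [IsScalarTower k U V] (I J L : Type) [Fintype J] :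
    Matrix I J U →ₗ[k] Matrix J L V →ₗ[k] Matrix I L V :=
  LinearMap.mk₂ k (fun a c => fun i l => ∑ j, a i j • c j l)
    (fun a a' c => by
      ext i l
      change ∑ j, (a i j + a' i j) • c j l = ∑ j, a i j • c j l + ∑ j, a' i j • c j l
      rw [← Finset.sum_add_distrib]
      exact Finset.sum_congr rfl fun j _ => add_smul _ _ _)
    (fun x a c => by
      ext i l
      change ∑ j, (x • a i j) • c j l = x • ∑ j, a i j • c j l
      rw [Finset.smul_sum]
      exact Finset.sum_congr rfl fun j _ => smul_assoc _ _ _)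
    (fun a c c' => by
      ext i l
      change ∑ j, a i j • (c j l + c' j l) = ∑ j, a i j • c j l + ∑ j, a i j • c' j l
      rw [← Finset.sum_add_distrib]
      exact Finset.sum_congr rfl fun j _ => smul_add _ _ _)
    (fun x a c => by
      ext i l
      change ∑ j, a i j • (x • c j l) = x • ∑ j, a i j • c j l
      rw [Finset.smul_sum]
      exact Finset.sum_congr rfl fun j _ => smul_comm _ _ _)

/-- the product of a matrix over `V` and of a matrix over `U` -/
noncomputable def mR (k U V : Type) [Field k] [CommRing U] [Algebra k U] [AddCommGroup V]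
    [Module k V] [Module U V] [IsScalarTower k U V] (I J L : Type) [Fintype J] :
    Matrix I J V →ₗ[k] Matrix J L U →ₗ[k] Matrix I L V :=
  LinearMap.mk₂ k (fun c a => fun i l => ∑ j, a j l • c i j)
    (fun c c' a => by
      ext i l
      change ∑ j, a j l • (c i j + c' i j) = ∑ j, a j l • c i j + ∑ j, a j l • c' i j
      rw [← Finset.sum_add_distrib]
      exact Finset.sum_congr rfl fun j _ => smul_add _ _ _)
    (fun x c a => by
      ext i l
      change ∑ j, a j l • (x • c i j) = x • ∑ j, a j l • c i j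
      rw [Finset.smul_sum]
      exact Finset.sum_congr rfl fun j _ => smul_comm _ _ _)
    (fun c a a' => by
      ext i l
      change ∑ j, (a j l + a' j l) • c i j = ∑ j, a j l • c i j + ∑ j, a' j l • c i j
      rw [← Finset.sum_add_distrib]
      exact Finset.sum_congr rfl fun j _ => add_smul _ _ _)
    (fun x c a => by
      ext i l
      change ∑ j, (x • a j l) • c i j = x • ∑ j, a j l • c i j
      rw [Finset.smul_sum]
      exact Finset.sum_congr rfl fun j _ => smul_assoc _ _ _)

theorem mL_apply [Fintype J] (a : Matrix I J U) (c : Matrix J L V) (i : I) (l : L) :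
    mL k U V I J L a c i l = ∑ j, a i j • c j l := rfl

theorem mR_apply [Fintype J] (c : Matrix I J V) (a : Matrix J L U) (i : I) (l : L) :
    mR k U V I J L c a i l = ∑ j, a j l • c i j := rfl

theorem mL_mul [Fintype J] [Fintype L] (a : Matrix I J U) (b : Matrix J L U) (c : Matrix L M V) :
    mL k U V I L M (a * b) c = mL k U V I J M a (mL k U V J L M b c) := by
  ext i m
  rw [mL_apply, mL_apply]
  simp only [Matrix.mul_apply, mL_apply, Finset.sum_smul, Finset.smul_sum, mul_smul]
  exact Finset.sum_comm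

theorem mR_mul [Fintype J] [Fintype L] (c : Matrix I J V) (a : Matrix J L U) (b : Matrix L M U) :
    mR k U V I L M (mR k U V I J L c a) b = mR k U V I J M c (a * b) := by
  ext i m
  rw [mR_apply, mR_apply]
  simp only [Matrix.mul_apply, mR_apply, Finset.sum_smul, Finset.smul_sum]
  rw [Finset.sum_comm]
  refine Finset.sum_congr rfl fun j _ => Finset.sum_congr rfl fun l _ => ?_
  rw [mul_comm, mul_smul]

theorem mL_mR [Fintype J] [Fintype L] (a : Matrix I J U) (c : Matrix J L V) (b : Matrix L M U) :
    mR k U V I L M (mL k U V I J L a c) b = mL k U V I J M a (mR k U V J L M c b) := by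
  ext i m
  rw [mR_apply, mL_apply]
  simp only [mR_apply, mL_apply, Finset.smul_sum]
  rw [Finset.sum_comm]
  refine Finset.sum_congr rfl fun j _ => Finset.sum_congr rfl fun l _ => ?_
  rw [smul_comm]

theorem mL_one [Fintype I] [DecidableEq I] (c : Matrix I J V) :
    mL k U V I I J (1 : Matrix I I U) c = c := by
  ext i j
  rw [mL_apply, Finset.sum_eq_single i]
  · rw [Matrix.one_apply_eq, one_smul]
  · intro l _ hl
    rw [Matrix.one_apply_ne hl.symm, zero_smul]
  · intro h
    exact absurd (Finset.mem_univ i) h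

theorem mR_one [Fintype J] [DecidableEq J] (c : Matrix I J V) :
    mR k U V I J J c (1 : Matrix J J U) = c := by
  ext i j
  rw [mR_apply, Finset.sum_eq_single j]
  · rw [Matrix.one_apply_eq, one_smul]
  · intro l _ hl
    rw [Matrix.one_apply_ne hl, zero_smul]
  · intro h
    exact absurd (Finset.mem_univ j) h

/-- apply an `U`-linear map to the entries -/
def mM (k : Type) [Field k] {U V V' : Type} [CommRing U] [Algebra k U] [AddCommGroup V]
    [Module k V] [Module U V] [IsScalarTower k U V] [AddCommGroup V'] [Module k V'] [Module U V']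
    [IsScalarTower k U V'] (I J : Type) (φ : V →ₗ[U] V') : Matrix I J V →ₗ[k] Matrix I J V' where
  toFun c := fun i j => φ (c i j)
  map_add' c c' := by
    ext i j
    exact map_add φ _ _
  map_smul' x c := by
    ext i j
    change φ (x • c i j) = x • φ (c i j)
    rw [← algebraMap_smul U x (c i j), map_smul, algebraMap_smul]

theorem mM_apply (φ : V →ₗ[U] V') (c : Matrix I J V) (i : I) (j : J) :
    mM k I J φ c i j = φ (c i j) := rfl

theorem mM_mL [Fintype J] (φ : V →ₗ[U] V') (a : Matrix I J U) (c : Matrix J L V) :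
    mM k I L φ (mL k U V I J L a c) = mL k U V' I J L a (mM k J L φ c) := by
  ext i l
  rw [mM_apply, mL_apply, mL_apply, map_sum]
  exact Finset.sum_congr rfl fun j _ => map_smul φ _ _

theorem mM_mR [Fintype J] (φ : V →ₗ[U] V') (c : Matrix I J V) (a : Matrix J L U) :
    mM k I L φ (mR k U V I J L c a) = mR k U V' I J L (mM k I J φ c) a := by
  ext i l
  rw [mM_apply, mR_apply, mR_apply, map_sum]
  exact Finset.sum_congr rfl fun j _ => map_smul φ _ _

theorem mM_injective (φ : V →ₗ[U] V') (h : Function.Injective φ) :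
    Function.Injective (mM k I J φ) := fun c c' hc => by
  ext i j
  exact h (congrFun (congrFun hc i) j)

theorem mM_surjective (φ : V →ₗ[U] V') (h : Function.Surjective φ) :
    Function.Surjective (mM k I J φ) := fun c => by
  choose g hg using h
  exact ⟨fun i j => g (c i j), by
    ext i j
    exact hg _⟩

theorem mM_exact (φ : V →ₗ[U] V') (ψ : V' →ₗ[U] V'') (h : Function.Exact φ ψ) :
    Function.Exact (mM k I J φ) (mM k I J ψ) := fun c => by
  constructor
  · intro hc
    choose g hg using fun i j => (h (c i j)).1 (congrFun (congrFun hc i) j)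
    exact ⟨fun i j => g i j, by
      ext i j
      exact hg i j⟩
  · rintro ⟨g, rfl⟩
    ext i j
    exact (h _).2 ⟨g i j, rfl⟩

theorem mL_self [Fintype J] (a : Matrix I J U) (c : Matrix J L U) :
    mL k U U I J L a c = a * c := by
  ext i l
  rw [mL_apply, Matrix.mul_apply]
  rfl

theorem mR_self [Fintype J] (c : Matrix I J U) (a : Matrix J L U) :
    mR k U U I J L c a = c * a := by
  ext i l
  rw [mR_apply, Matrix.mul_apply]
  exact Finset.sum_congr rfl fun j _ => mul_comm _ _

end mat

/-! ### matrices over `V`, with zero differential -/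

/-- a module with zero differential, even -/
def xSD (k S : Type) [Field k] [AddCommGroup S] [Module k S] : SD k where
  V := S
  D := 0
  P := LinearMap.id
  DD _ := rfl
  PP _ := rfl
  DP v := by simp

theorem xSD_D (S : Type) [AddCommGroup S] [Module k S] (v : (xSD k S).V) : (xSD k S).D v = 0 := rfl
theorem xSD_P (S : Type) [AddCommGroup S] [Module k S] (v : (xSD k S).V) : (xSD k S).P v = v := rfl

variable {I J L M : Type}

/-- the component on the chart `x ≠ 0` -/
noncomputable def xe (C : ERing k q R) (α : I → ℤ) (β : J → ℤ) :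
    (qSD C α β).V →ₗ[k] Matrix I J C.U where
  toFun f := fun i j => C.uX (qv_mem C f Pc.X i j)
  map_add' f g := by
    ext i j
    change qv C α β (f + g) Pc.X i j = qv C α β f Pc.X i j + qv C α β g Pc.X i j
    rw [map_add]
    rfl
  map_smul' c f := by
    ext i j
    change qv C α β (c • f) Pc.X i j = c • qv C α β f Pc.X i j
    rw [map_smul]
    rfl

theorem coe_xe (C : ERing k q R) (α : I → ℤ) (β : J → ℤ) (f : (qSD C α β).V) (i : I) (j : J) :
    (xe C α β f i j : R) = qv C α β f Pc.X i j := rfl

theorem xe_D (C : ERing k q R) (α : I → ℤ) (β : J → ℤ) (f : (qSD C α β).V) :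
    xe C α β ((qSD C α β).D f) = 0 := by
  ext i j
  rw [coe_xe, qv_D]
  rfl

theorem xe_P (C : ERing k q R) (α : I → ℤ) (β : J → ℤ) (f : (qSD C α β).V) :
    xe C α β ((qSD C α β).P f) = xe C α β f := by
  ext i j
  rw [coe_xe, qv_P]
  rfl

/-- the component of an element of `A` on the chart `x ≠ 0` -/
noncomputable def ax (C : ERing k q R) : (AA C).V →ₗ[k] Matrix (Fin 2) (Fin 2) C.U := xe C wt wt

theorem coe_ax (C : ERing k q R) (a : (AA C).V) (i j : Fin 2) :
    (ax C a i j : R) = av C a Pc.X i j := rfl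

theorem coe_matMul (C : ERing k q R) [Fintype J] (a : Matrix I J C.U) (b : Matrix J L C.U) (i : I)
    (l : L) : ((a * b) i l : R) = ∑ j, (a i j : R) * (b j l : R) := by
  rw [Matrix.mul_apply]
  simp

theorem ax_mul (C : ERing k q R) (a b : (AA C).V) : ax C (a * b) = ax C a * ax C b := by
  ext i j
  rw [coe_ax, av_mul, coe_matMul, cMul_X, matMul_apply, Matrix.mul_apply]
  rfl

theorem ax_one (C : ERing k q R) : ax C 1 = 1 := by
  ext i j
  rw [coe_ax, av_one, cOne_X, Matrix.one_apply, Matrix.one_apply]
  split_ifs <;> rfl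

theorem ax_P (C : ERing k q R) (a : (AA C).V) : ax C ((AA C).P a) = ax C a := xe_P C wt wt a

theorem ax_D (C : ERing k q R) (a : (AA C).V) : ax C ((AA C).D a) = 0 := xe_D C wt wt a

section

variable {T N : Type} [AddCommGroup T] [Module k T] [AddCommGroup N] [Module k N]

private theorem xlP (C : ERing k q R) (m : Matrix (Fin 2) (Fin 2) C.U →ₗ[k] T →ₗ[k] N)
    (a : (AA C).V) (y : T) :
    m (ax C a) y = m (ax C ((AA C).P a)) y + m (ax C (a - (AA C).P a)) (y - y) := by
  rw [sub_self, map_zero, add_zero, ax_P]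

private theorem xlD (C : ERing k q R) (m : Matrix (Fin 2) (Fin 2) C.U →ₗ[k] T →ₗ[k] N)
    (a : (AA C).V) (y : T) :
    (0 : N) = m (ax C ((AA C).D a)) y + m (ax C ((AA C).E a)) 0 := by
  rw [map_zero, add_zero, ax_D, map_zero, LinearMap.zero_apply]

private theorem xrP (C : ERing k q R) (m : T →ₗ[k] Matrix (Fin 2) (Fin 2) C.U →ₗ[k] N) (x : T)
    (a : (AA C).V) :
    m x (ax C a) = m x (ax C ((AA C).P a)) + m (x - x) (ax C (a - (AA C).P a)) := by
  rw [sub_self, map_zero, LinearMap.zero_apply, add_zero, ax_P]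

private theorem xrD (C : ERing k q R) (m : T →ₗ[k] Matrix (Fin 2) (Fin 2) C.U →ₗ[k] N) (x : T)
    (a : (AA C).V) : (0 : N) = m 0 (ax C a) + m (x + x - x) (ax C ((AA C).D a)) := by
  rw [map_zero, LinearMap.zero_apply, zero_add, ax_D, map_zero]

end

section modules

variable (C : ERing k q R) (V : Type) [AddCommGroup V] [Module k V] [Module C.U V]
  [IsScalarTower k C.U V]

/-- the left action of `A` on matrices over `V` -/
noncomputable def xVL (J : Type) : LA (AA C) (xSD k (Matrix (Fin 2) J V)) where
  act := (mL k C.U V (Fin 2) (Fin 2) J).comp (ax C)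
  mul_act a b y := by
    change mL k C.U V (Fin 2) (Fin 2) J (ax C (a * b)) y
      = mL k C.U V (Fin 2) (Fin 2) J (ax C a) (mL k C.U V (Fin 2) (Fin 2) J (ax C b) y)
    rw [ax_mul, mL_mul]
  P_act a y := xlP C (mL k C.U V (Fin 2) (Fin 2) J) a y
  D_act a y := xlD C (mL k C.U V (Fin 2) (Fin 2) J) a y

/-- the right action of `A` on matrices over `V` -/
noncomputable def xVR (I : Type) : RA (AA C) (xSD k (Matrix I (Fin 2) V)) where
  act := (mR k C.U V I (Fin 2) (Fin 2)).compl₂ (ax C)
  act_mul x a b := by
    change mR k C.U V I (Fin 2) (Fin 2) (mR k C.U V I (Fin 2) (Fin 2) x (ax C a)) (ax C b)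
      = mR k C.U V I (Fin 2) (Fin 2) x (ax C (a * b))
    rw [ax_mul, mR_mul]
  P_act x a := xrP C (mR k C.U V I (Fin 2) (Fin 2)) x a
  D_act x a := xrD C (mR k C.U V I (Fin 2) (Fin 2)) x a

variable {V}

theorem xVL_one (y : (xSD k (Matrix (Fin 2) J V)).V) : (xVL C V J).act 1 y = y := by
  change mL k C.U V (Fin 2) (Fin 2) J (ax C 1) y = y
  rw [ax_one, mL_one]

theorem xVR_one (y : (xSD k (Matrix I (Fin 2) V)).V) : (xVR C V I).act y 1 = y := by
  change mR k C.U V I (Fin 2) (Fin 2) y (ax C 1) = y
  rw [ax_one, mR_one]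

variable (V)

/-- the bimodule of matrices over `V`, with zero differential -/
noncomputable def xVb : BMod (AA C) (AA C) where
  N := xSD k (Matrix (Fin 2) (Fin 2) V)
  b :=
    { l := xVL C V (Fin 2)
      r := xVR C V (Fin 2)
      lr := fun a x b => mL_mR (ax C a) x (ax C b) }
  one_l := fun y => xVL_one C y
  r_one := fun y => xVR_one C y

/-- `(column over V) ⊗ (row over V)` -/
noncomputable abbrev tXX : BMod (AA C) (AA C) :=
  tB (xVL C V Unit) (xVL_one C) (xVR C V Unit) (xVR_one C)

variable {V}
variable {V' V'' : Type} [AddCommGroup V'] [Module k V'] [Module C.U V'] [IsScalarTower k C.U V']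
  [AddCommGroup V''] [Module k V''] [Module C.U V''] [IsScalarTower k C.U V'']

/-- an `U`-linear map, as a map of complexes -/
noncomputable def xMapS (I J : Type) (φ : V →ₗ[C.U] V') :
    SD.Hom (xSD k (Matrix I J V)) (xSD k (Matrix I J V')) where
  f := mM k I J φ
  D v := map_zero (mM k I J φ)
  P _ := rfl

/-- an `U`-linear map, as a map of bimodules of matrices -/
noncomputable def xMapB (φ : V →ₗ[C.U] V') : BMod.Hom (xVb C V) (xVb C V') where
  toHom := xMapS C (Fin 2) (Fin 2) φ
  isHom := ⟨fun a v => mM_mL φ (ax C a) v, fun v a => mM_mR φ v (ax C a)⟩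

theorem xMapB_ses (φ : V →ₗ[C.U] V') (ψ : V' →ₗ[C.U] V'')
    (h1 : Function.Injective φ) (h2 : Function.Exact φ ψ) (h3 : Function.Surjective ψ) :
    SD.SES (xMapB C φ).toHom (xMapB C ψ).toHom where
  inj x hx := mM_injective (k := k) (I := Fin 2) (J := Fin 2) φ h1
    (hx.trans (map_zero (mM k (Fin 2) (Fin 2) φ)).symm)
  surj z := mM_surjective (k := k) (I := Fin 2) (J := Fin 2) ψ h3 z
  zero x := (mM_exact (k := k) (I := Fin 2) (J := Fin 2) φ ψ h2 _).2 ⟨x, rfl⟩
  exact y hy := (mM_exact (k := k) (I := Fin 2) (J := Fin 2) φ ψ h2 y).1 hy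

/-! ### the value of a Čech matrix of sections -/

/-- an `U`-linear map `U → V` applied to the entries on the chart `x ≠ 0` -/
noncomputable def evX (α : I → ℤ) (β : J → ℤ) (φ : C.U →ₗ[C.U] V) :
    SD.Hom (qSD C α β) (xSD k (Matrix I J V)) where
  f := (mM k I J φ).comp (xe C α β)
  D v := by
    change mM k I J φ (xe C α β ((qSD C α β).D v)) = 0
    rw [xe_D, map_zero]
  P v := by
    change mM k I J φ (xe C α β ((qSD C α β).P v)) = mM k I J φ (xe C α β v)
    rw [xe_P]

theorem evX_apply (α : I → ℤ) (β : J → ℤ) (φ : C.U →ₗ[C.U] V) (v : (qSD C α β).V) (i : I)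
    (j : J) : (evX C α β φ).f v i j = φ (C.uX (qv_mem C v Pc.X i j)) := rfl

theorem evX_left (β : J → ℤ) (φ : C.U →ₗ[C.U] V) :
    (qLA C β).IsHom (xVL C V J) (evX C wt β φ) := fun a v => by
  change mM k (Fin 2) J φ (xe C wt β (qMulL C β a v))
    = mL k C.U V (Fin 2) (Fin 2) J (ax C a) (mM k (Fin 2) J φ (xe C wt β v))
  have h : xe C wt β (qMulL C β a v) = mL k C.U C.U (Fin 2) (Fin 2) J (ax C a) (xe C wt β v) := by
    rw [mL_self]
    ext i j
    rw [coe_xe, qv_qMulL, coe_matMul, cMul_X, matMul_apply, Matrix.mul_apply]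
    rfl
  rw [h, mM_mL]

theorem evX_right (α : I → ℤ) (n : ℤ) (φ : C.U →ₗ[C.U] V) :
    (qRA C α n).IsHom (xVR C V I) (evX C α (wtn n) φ) := fun v a => by
  change mM k I (Fin 2) φ (xe C α (wtn n) (qMulR C α n v a))
    = mR k C.U V I (Fin 2) (Fin 2) (mM k I (Fin 2) φ (xe C α (wtn n) v)) (ax C a)
  have h : xe C α (wtn n) (qMulR C α n v a)
      = mR k C.U C.U I (Fin 2) (Fin 2) (xe C α (wtn n) v) (ax C a) := by
    rw [mR_self]
    ext i j
    rw [coe_xe, qv_qMulR, coe_matMul, cMul_X, matMul_apply, Matrix.mul_apply]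
    rfl
  rw [h, mM_mR]

/-- an `U`-linear map `U → V`, as a map of bimodules -/
noncomputable def evB (n : ℤ) (φ : C.U →ₗ[C.U] V) : BMod.Hom (Qb C n) (xVb C V) where
  toHom := evX C wt (wtn n) φ
  isHom := ⟨evX_left C (wtn n) φ, evX_right C wt n φ⟩

end modules

end EE
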